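import Pool.Agent.Y205.MD.Gen

/-! The corank and further conditions (copied from `Pool.Agent.Y205.MD.Sub`). -/

set_option autoImplicit false

namespace Pool.Agent.K6.H83.HX

open Finset Module Pool.Agent.TH176.Nag Pool.Agent.TH603.Sur Pool.Agent.H932R3 Pool.Agent.Y205.MD

section
variable {ι : Type} [DecidableEq ι]

/-- one more condition -/
theorem crk_drop [Finite ι] {S : Finset (ℤ × ℤ)} (hpos : ∀ u ∈ S, 0 ≤ u.1 ∧ 0 ≤ u.2) (s : ι → ℕ)
    (q : ι) (l : ℕ) :
    crk S (Function.update s q l) ≤ crk S (Function.update s q (l + 1)) + (l + 1) := by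
  have hfd := fun w : ι → ℕ => GS_fd S w
  have h0 := Pool.Agent.TH552.BB.finrank_split (phi q l) (GS S (Function.update s q l))
  rw [GS_ker] at h0
  simp only [finrank_GS hpos] at h0
  have h1 : finrank (GK ι) ↥((GS S (Function.update s q l)).map (phi q l)) ≤ l + 1 := by
    refine (Submodule.finrank_le _).trans (le_of_eq ?_)
    rw [finrank_fin_fun]
  omega

/-- raising of multiplicities -/
theorem crk_cond [Fintype ι] {S : Finset (ℤ × ℤ)} (hpos : ∀ u ∈ S, 0 ≤ u.1 ∧ 0 ≤ u.2)
    (N : ℕ) : ∀ {w v : ι → ℕ}, (∀ i, w i ≤ v i) → ∑ i, v i ≤ ∑ i, w i + N →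
      crk S w + cond w ≤ crk S v + cond v := by
  induction N with
  | zero =>
    intro w v h hs
    have : w = v := by
      by_contra hne
      have hex : ∃ i, w i < v i := by
        by_contra hcon
        push Not at hcon
        exact hne (funext fun i => le_antisymm (h i) (hcon i))
      obtain ⟨i, hi⟩ := hex
      have := sum_lt_sum (fun i _ => h i) ⟨i, mem_univ i, hi⟩
      omega
    rw [this]
  | succ N ih =>
    intro w v h hs
    by_cases hex : ∃ i, w i < v i
    · obtain ⟨q, hq⟩ := hex
      obtain ⟨w', hw'⟩ : ∃ w' : ι → ℕ, w' = Function.update w q (w q + 1) := ⟨_, rfl⟩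
      have e0 : w' q = w q + 1 := by rw [hw', Function.update_self]
      have e1 : ∀ i, i ≠ q → w' i = w i := fun i hi => by rw [hw', Function.update_of_ne hi]
      have h1 : ∀ i, w' i ≤ v i := by
        intro i
        by_cases hi : i = q
        · subst hi
          rw [e0]
          exact hq
        · rw [e1 i hi]
          exact h i
      have s1 : ∑ i, w' i = ∑ i, w i + 1 := by
        rw [← add_sum_erase _ _ (mem_univ q), ← add_sum_erase _ w (mem_univ q), e0]
        have : ∑ x ∈ univ.erase q, w' x = ∑ x ∈ univ.erase q, w x :=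
          sum_congr rfl fun z hz => e1 z (ne_of_mem_erase hz)
        rw [this]
        omega
      have s2 : cond w' = cond w + (w q + 1) := by
        unfold Pool.Agent.TH603.Sur.cond
        rw [← add_sum_erase _ _ (mem_univ q), ← add_sum_erase _ (fun i => (w i + 1).choose 2)
          (mem_univ q)]
        have g1 : ∑ x ∈ univ.erase q, (w' x + 1).choose 2 =
            ∑ x ∈ univ.erase q, (w x + 1).choose 2 :=
          sum_congr rfl fun z hz => by rw [e1 z (ne_of_mem_erase hz)]
        rw [g1, e0]
        have g2 : (w q + 1 + 1).choose 2 = (w q + 1).choose 2 + (w q + 1) := by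
          rw [Nat.choose_succ_succ' (w q + 1) 1, Nat.choose_one_right, add_comm]
        omega
      have h2 := ih h1 (by omega)
      have h3 := crk_drop hpos w q (w q)
      rw [Function.update_eq_self, ← hw'] at h3
      omega
    · push Not at hex
      have : w = v := funext fun i => le_antisymm (h i) (hex i)
      rw [this]

end

end Pool.Agent.K6.H83.HX
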