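import Pool.Agent.K6.H83.HX.LeafE
import Pool.Agent.K6.H83.QH.CoreD

/-! The corank: large points with full independence and emptiness, arbitrary bounded
multiplicities. -/

set_option autoImplicit false

namespace Pool.Agent.K6.H83.HX

open Finset Pool.Agent.TH176.Nag Pool.Agent.TH603.Sur Pool.Agent.TH641.UM Pool.Agent.TH2.NU
  Pool.Agent.Y205.MD Pool.Agent.Y205.FW Pool.Agent.K6.H83.QH Pool.Agent.Y205.AV

/-- **The corank.** -/
theorem coreE {G E : Multiset ℕ} {m d δ Δ : ℕ} (hm : 1 ≤ m)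
    (hΔ : Δ + 2 * cM E = (d + 1) * (d + 2)) (hG : ∀ x ∈ G, 1 ≤ x ∧ x + 1 ≤ m)
    (hsur : ∀ M' : Multiset ℕ, (∀ x ∈ M', x + 1 ≤ 8 * m) →
      sq1 M' + 24447552 * m ^ 2 + Δ / (256 * m) + 1 ≤ Δ → SM (E + M') (TZ d))
    (hemp : ∀ M' : Multiset ℕ, (∀ x ∈ M', 1 ≤ x ∧ x ≤ 8 * m) →
      Δ + 4916224 * (m * m) < S2 M' → EM (E + M') (TZ d))
    (hδ : 2 * (TF d).card = 2 * cM (G + E) + δ ∨ 2 * (TF d).card + δ = 2 * cM (G + E))
    (h : 2 ^ 28 * m ^ 2 ≤ G.sum + δ) :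
    crkM (TF d) (E + G) ≤ (TF d).card - cM (G + E) := by
  classical
  obtain ⟨V, hV⟩ : ∃ V : Finset ℕ, V = G.toFinset := ⟨_, rfl⟩
  have hVv : ∀ x ∈ V, 1 ≤ x ∧ x + 1 ≤ m := fun x hx => hG x (by
    rw [hV, Multiset.mem_toFinset] at hx
    exact hx)
  obtain ⟨Nf, hNf⟩ : ∃ Nf : ℕ → ℕ, ∀ x, Nf x = G.count x / 64 := ⟨_, fun _ => rfl⟩
  obtain ⟨Rf, hRf⟩ : ∃ Rf : ℕ → ℕ, ∀ x, Rf x = G.count x % 64 := ⟨_, fun _ => rfl⟩
  have hNR : ∀ x, 64 * Nf x + Rf x = G.count x := fun x => by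
    rw [hNf, hRf]
    exact Nat.div_add_mod _ _
  have hR63 : ∀ x, Rf x ≤ 63 := fun x => by
    rw [hRf]
    have := Nat.mod_lt (G.count x) (show 0 < 64 by norm_num)
    omega
  have hGsum : G = ∑ x ∈ V, G.count x • ({x} : Multiset ℕ) := by
    rw [hV]
    exact (Multiset.toFinset_sum_count_nsmul_eq G).symm
  have hGsplit : E + G = ∑ x ∈ V, Multiset.replicate (4 ^ 3 * Nf x) x +
      (∑ x ∈ V, Rf x • ({x} : Multiset ℕ) + E) := by
    rw [← add_assoc, ← sum_add_distrib, add_comm]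
    congr 1
    conv_lhs => rw [hGsum]
    refine sum_congr rfl fun x _ => ?_
    rw [← hNR x, add_smul, ← Multiset.nsmul_singleton]
    congr 1
  rw [hGsplit]
  have hposS : ∀ u ∈ TF d, 0 ≤ u.1 ∧ 0 ≤ u.2 := by
    intro u hu
    have h1 : u ∈ TZ d := by rw [← coe_TF]; exact mem_coe.2 hu
    exact ⟨h1.1, h1.2.1⟩
  refine classes_acc hposS 3 Nf V fun a g0 g1 hleaf => ?_
  have hlo : ∀ x ∈ V, 8 * x ≤ a x := fun x hx => by simpa using (hleaf x hx).lo
  have hhi : ∀ x ∈ V, a x + 1 ≤ 8 * (x + 1) := fun x hx => by simpa using (hleaf x hx).hi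
  have hcd : ∀ x ∈ V, Nf x * (a x + 1).choose 2 + g0 x =
      64 * Nf x * (x + 1).choose 2 + g1 x := fun x hx => by simpa using (hleaf x hx).cd
  have hga : ∀ x ∈ V, Nf x * x * 64 ≤ 2 * (g0 x + g1 x) + Nf x * x * 8 := fun x hx => by
    simpa using (hleaf x hx).gain
  obtain ⟨K, hK⟩ : ∃ K : Multiset ℕ, K = ∑ x ∈ V, Nf x • ({a x} : Multiset ℕ) +
      ∑ x ∈ V, Rf x • ({x} : Multiset ℕ) := ⟨_, rfl⟩
  have hgoal : ∑ x ∈ V, Multiset.replicate (Nf x) (a x) +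
      (∑ x ∈ V, Rf x • ({x} : Multiset ℕ) + E) = E + K := by
    rw [hK]
    have e : ∑ x ∈ V, Multiset.replicate (Nf x) (a x) = ∑ x ∈ V, Nf x • ({a x} : Multiset ℕ) :=
      sum_congr rfl fun x _ => (Multiset.nsmul_singleton _ _).symm
    rw [e]
    abel
  rw [hgoal]
  -- the numbers
  have hcG : cM G = ∑ x ∈ V, G.count x * (x + 1).choose 2 := by
    conv_lhs => rw [hGsum]
    exact cM_sumG V (fun x => G.count x) fun x => x
  have hsG : G.sum = ∑ x ∈ V, G.count x * x := by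
    conv_lhs => rw [hGsum]
    exact sum_sumG V (fun x => G.count x) fun x => x
  have hS2G : S2 G = ∑ x ∈ V, G.count x * x ^ 2 := by
    conv_lhs => rw [hGsum]
    exact S2_sumG V (fun x => G.count x) fun x => x
  obtain ⟨X, hX⟩ : ∃ X, X = ∑ x ∈ V, Nf x * x := ⟨_, rfl⟩
  obtain ⟨e1, he1⟩ : ∃ e1, e1 = ∑ x ∈ V, Rf x * x := ⟨_, rfl⟩
  obtain ⟨e0, he0⟩ : ∃ e0, e0 = ∑ x ∈ V, Rf x := ⟨_, rfl⟩
  have hLX : G.sum = 64 * X + e1 := by
    rw [hsG, hX, he1, mul_sum, ← sum_add_distrib]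
    refine sum_congr rfl fun x _ => ?_
    rw [← hNR x]
    ring
  have hcGv : cM (G + E) = cM G + cM E := cM_add _ _
  have htwo := two_cMS G
  have hGm : S2 G + G.sum ≤ m * G.sum := by
    rw [hsG, hS2G, mul_sum, ← sum_add_distrib]
    refine sum_le_sum fun x hx => ?_
    have h1 := (hVv x hx).2
    calc G.count x * x ^ 2 + G.count x * x = G.count x * x * (x + 1) := by ring
      _ ≤ G.count x * x * m := Nat.mul_le_mul_left _ h1
      _ = m * (G.count x * x) := by ring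
  have hKsum : K.sum = ∑ x ∈ V, (Nf x * a x + Rf x * x) := by
    rw [hK, Multiset.sum_add, sum_sumG V Nf a, sum_sumG V Rf fun x => x, ← sum_add_distrib]
  have hcK : cM K = ∑ x ∈ V, (Nf x * (a x + 1).choose 2 + Rf x * (x + 1).choose 2) := by
    rw [hK, cM_add, cM_sumG V Nf a, cM_sumG V Rf fun x => x, ← sum_add_distrib]
  have hnK : K.card = ∑ x ∈ V, (Nf x + Rf x) := by
    rw [hK, Multiset.card_add, card_sumG V Nf a, card_sumG V Rf fun x => x, sum_add_distrib]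
  have hVsub : V ⊆ Finset.range m := fun x hx => by
    rw [Finset.mem_range]
    have := (hVv x hx).2
    omega
  have hsumV : 2 * ∑ x ∈ V, x ≤ m ^ 2 := by
    have h1 : ∑ x ∈ V, x ≤ ∑ x ∈ Finset.range m, x := sum_le_sum_of_subset hVsub
    have h2 := Finset.sum_range_id_mul_two m
    have h3 : m * (m - 1) ≤ m ^ 2 := by
      rw [sq]
      exact Nat.mul_le_mul_left _ (Nat.sub_le _ _)
    omega
  have hcardV : V.card ≤ m := by
    have := card_le_card hVsub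
    rwa [Finset.card_range] at this
  have hKm : ∀ y ∈ K, 1 ≤ y ∧ y + 1 ≤ 8 * m := by
    intro y hy
    rw [hK, Multiset.mem_add] at hy
    rcases hy with hy | hy
    · obtain ⟨x, hx, rfl⟩ := mem_sumG hy
      have h1 := hhi x hx
      have h2 := hVv x hx
      have h3 := hlo x hx
      omega
    · obtain ⟨x, hx, hyx⟩ := mem_sumG hy
      have h2 := hVv x hx
      omega
  refine leafE (m := m) (T := cM (G + E)) (G1 := ∑ x ∈ V, g1 x) (X := X) (e0 := e0) (e1 := e1)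
    (L := G.sum) (δ := δ) (Δ := Δ) hm hKm hΔ ?_ (hsur K fun y hy => (hKm y hy).2) hemp hδ
    (by omega) ?_ ?_ ?_ ?_ ?_ hLX ?_ h
  · rw [hcGv, cM_add, hcK, hcG]
    have h1 : ∑ x ∈ V, (Nf x * (a x + 1).choose 2 + Rf x * (x + 1).choose 2) + ∑ x ∈ V, g0 x =
        ∑ x ∈ V, G.count x * (x + 1).choose 2 + ∑ x ∈ V, g1 x := by
      rw [← sum_add_distrib, ← sum_add_distrib]
      refine sum_congr rfl fun x hx => ?_
      have h4 := hcd x hx
      have e : G.count x * (x + 1).choose 2 = 64 * Nf x * (x + 1).choose 2 +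
          Rf x * (x + 1).choose 2 := by
        rw [← hNR x]
        ring
      omega
    omega
  · have h1 : ∑ x ∈ V, Nf x * x * 64 ≤ ∑ x ∈ V, (2 * (g0 x + g1 x) + Nf x * x * 8) :=
      sum_le_sum hga
    rw [sum_add_distrib, ← mul_sum, sum_add_distrib, ← sum_mul, ← sum_mul, ← hX] at h1
    omega
  · have h2 : ∑ x ∈ V, 17 * (Nf x * a x + Rf x * x) ≤
        ∑ x ∈ V, (136 * (Nf x * x) + 4 * g1 x + 17 * (Rf x * x)) := by
      refine sum_le_sum fun x hx => ?_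
      have h3 := leaf_linQ (hVv x hx).1 (hlo x hx) (hcd x hx) (hga x hx)
      omega
    have h4 : ∑ x ∈ V, (136 * (Nf x * x) + 4 * g1 x + 17 * (Rf x * x)) =
        136 * X + 4 * ∑ x ∈ V, g1 x + 17 * e1 := by
      rw [sum_add_distrib, sum_add_distrib, ← mul_sum, ← mul_sum, ← mul_sum, ← hX, ← he1]
    rw [← mul_sum] at h2
    rw [hKsum]
    omega
  · rw [hnK, sum_add_distrib, ← he0]
    refine Nat.add_le_add_right ?_ _
    rw [hX]
    refine sum_le_sum fun x hx => ?_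
    calc Nf x = Nf x * 1 := (mul_one _).symm
      _ ≤ Nf x * x := Nat.mul_le_mul_left _ (hVv x hx).1
  · have h1 : e1 ≤ 63 * ∑ x ∈ V, x := by
      rw [he1, mul_sum]
      exact sum_le_sum fun x _ => Nat.mul_le_mul_right _ (hR63 x)
    omega
  · have h1 : e0 ≤ ∑ _x ∈ V, 63 := by
      rw [he0]
      exact sum_le_sum fun x _ => hR63 x
    rw [sum_const, smul_eq_mul] at h1
    omega
  · omega

end Pool.Agent.K6.H83.HX
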