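import Pool.Agent.K6.H83.HX.HexE

/-! The three large points at the corners. -/

set_option autoImplicit false

namespace Pool.Agent.K6.H83.HX

open Finset Pool.Agent.TH176.Nag Pool.Agent.TH603.Sur Pool.Agent.TH641.UM Pool.Agent.K6.H83.QH
  Pool.Agent.Y205.AV

theorem EM_comap {M : Multiset ℕ} {S S' : Set (ℤ × ℤ)} (h : EM M S') (a b c d u v : ℤ)
    (hdet : a * d - b * c ≠ 0)
    (hS : ∀ m ∈ S, (a * m.1 + b * m.2 + u, c * m.1 + d * m.2 + v) ∈ S') : EM M S :=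
  Emp.comap h a b c d u v hdet hS

theorem SM_comap {M : Multiset ℕ} {S S' : Set (ℤ × ℤ)} (h : SM M S') (a b c d u v : ℤ)
    (hdet : a * d - b * c ≠ 0)
    (hS : ∀ m' ∈ S', ∃ m ∈ S, (a * m.1 + b * m.2 + u, c * m.1 + d * m.2 + v) = m') : SM M S :=
  Sur.comap h a b c d u v hdet hS

theorem SM_monoS {M : Multiset ℕ} {S S' : Set (ℤ × ℤ)} (h : SM M S') (hS : S' ⊆ S) : SM M S :=
  Sur.mono h hS

theorem EM_abs {M : Multiset ℕ} (v : ℕ) {S S' : Set (ℤ × ℤ)} (hfin : S.Finite)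
    (hS0 : ∀ m ∈ S, 0 ≤ m.2) (α : ℤ → ℤ) (hα : ∀ m ∈ S, α m.2 ≤ m.1)
    (hSS' : ∀ m ∈ S, (v : ℤ) ≤ m.2 + (m.1 - α m.2) → m ∈ S') (h : EM M S') :
    EM ({v} + M) S := by
  have h1 := Pool.Agent.TH102.DP.Emp_absorb v hfin hS0 α hα hSS' h
  exact (EM_iff (by rw [ms_option, ms_fam])).2 h1

theorem SM_abs {M : Multiset ℕ} (v : ℕ) (A C : ℤ → ℤ)
    (hrow : ∀ y : ℤ, 0 ≤ y → y < v → A y + (v - y) ≤ C y)
    (h : SM M (Pool.Agent.TH151.N13.Rg (fun y => A y + max ((v : ℤ) - y) 0) C)) :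
    SM ({v} + M) (Pool.Agent.TH151.N13.Rg A C) := by
  have h1 := Pool.Agent.TH151.N13.Sur_abs1 v A C hrow h
  exact (SM_iff (by rw [ms_option, ms_fam])).2 h1

/-- emptiness with three large points -/
theorem EM_three {M : Multiset ℕ} {d v1 v2 v3 : ℕ} (h : EM M (Hx d v1 v2 v3)) :
    EM ({v3} + ({v1} + ({v2} + M))) (TZ d) := by
  have fin1 : {p : ℤ × ℤ | 0 ≤ p.1 ∧ 0 ≤ p.2 ∧ p.1 + p.2 ≤ (d : ℤ)}.Finite :=
    (TZ_finite d).subset fun p hp => hp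
  have s0 : EM M {p : ℤ × ℤ | 0 ≤ p.2 ∧ p.2 + (v3 : ℤ) ≤ d ∧
      max ((v1 : ℤ) - p.2) 0 + max ((v2 : ℤ) - p.2) 0 ≤ p.1 ∧ p.1 + p.2 ≤ d} := by
    refine EM_comap h (-1) (-1) 0 1 d 0 (by norm_num) ?_
    rintro ⟨x, y⟩ ⟨g1, g2, g3, g4⟩
    simp only at g1 g2 g3 g4
    refine ⟨by simp only; omega, by simp only; omega, by simp only; omega, ?_⟩
    have e1 : 0 * x + 1 * y + 0 = y := by ring
    simp only [e1]
    linarith
  have s1 : EM ({v2} + M) {p : ℤ × ℤ | 0 ≤ p.2 ∧ p.2 + (v3 : ℤ) ≤ d ∧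
      max ((v1 : ℤ) - p.2) 0 ≤ p.1 ∧ p.1 + p.2 ≤ d} := by
    refine EM_abs v2 (fin1.subset ?_) (fun p hp => hp.1) (fun y => max ((v1 : ℤ) - y) 0)
      (fun p hp => hp.2.2.1) ?_ s0
    · rintro p ⟨g1, g2, g3, g4⟩
      have := le_max_right ((v1 : ℤ) - p.2) 0
      exact ⟨by omega, g1, g4⟩
    · rintro p ⟨g1, g2, g3, g4⟩ g5
      refine ⟨g1, g2, ?_, g4⟩
      rcases max_cases ((v2 : ℤ) - p.2) 0 with ⟨c3, c4⟩ | ⟨c3, c4⟩ <;> rw [c3] <;> omega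
  have s2 : EM ({v1} + ({v2} + M)) {p : ℤ × ℤ | 0 ≤ p.2 ∧ p.2 + (v3 : ℤ) ≤ d ∧
      0 ≤ p.1 ∧ p.1 + p.2 ≤ d} := by
    refine EM_abs v1 (fin1.subset ?_) (fun p hp => hp.1) (fun _ => 0)
      (fun p hp => hp.2.2.1) ?_ s1
    · rintro p ⟨g1, g2, g3, g4⟩
      exact ⟨g3, g1, g4⟩
    · rintro p ⟨g1, g2, g3, g4⟩ g5
      refine ⟨g1, g2, ?_, g4⟩
      rcases max_cases ((v1 : ℤ) - p.2) 0 with ⟨c3, c4⟩ | ⟨c3, c4⟩ <;> rw [c3] <;> omega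
  have s3 : EM ({v1} + ({v2} + M)) {p : ℤ × ℤ | 0 ≤ p.1 ∧ 0 ≤ p.2 ∧ p.1 + p.2 ≤ d ∧
      (v3 : ℤ) ≤ p.1 + p.2} := by
    refine EM_comap s2 1 0 (-1) (-1) 0 d (by norm_num) ?_
    rintro ⟨x, y⟩ ⟨g1, g2, g3, g4⟩
    simp only at g1 g2 g3 g4
    refine ⟨by simp only; omega, by simp only; omega, by simp only; omega, by simp only; omega⟩
  refine EM_abs v3 (TZ_finite d) (fun p hp => hp.2.1) (fun _ => 0) (fun p hp => hp.1) ?_ s3
  rintro p ⟨g1, g2, g3⟩ g5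
  exact ⟨g1, g2, g3, by omega⟩

/-- independence with three large points -/
theorem SM_three {M : Multiset ℕ} {d v1 v2 v3 : ℕ} (h12 : v1 + v2 ≤ d) (h13 : v1 + v3 ≤ d)
    (h23 : v2 + v3 ≤ d) (h : SM M (Hx d v1 v2 v3)) :
    SM ({v3} + ({v1} + ({v2} + M))) (TZ d) := by
  obtain ⟨C, hC⟩ : ∃ C : ℤ → ℤ, C = fun y => if y + (v3 : ℤ) ≤ d then (d : ℤ) - y else -1 := ⟨_, rfl⟩
  have s0 : SM M (Pool.Agent.TH151.N13.Rg (fun y => (max ((v1 : ℤ) - y) 0 - 1) +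
      max ((v2 : ℤ) - y) 0) C) := by
    refine SM_comap h (-1) (-1) 0 1 d 0 (by norm_num) ?_
    rintro ⟨x, y⟩ ⟨g1, g2, g3, g4⟩
    simp only at g1 g2 g3 g4
    refine ⟨((d : ℤ) - y - x, y), ⟨g2, ?_, ?_⟩, ?_⟩
    · simp only; linarith
    · simp only [hC]
      rw [if_pos g3]
      omega
    · ext
      · simp only; ring
      · simp only; ring
  have s1 : SM ({v2} + M) (Pool.Agent.TH151.N13.Rg (fun y => max ((v1 : ℤ) - y) 0 - 1) C) := by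
    refine SM_abs v2 _ C ?_ s0
    intro y h0 h1
    simp only [hC]
    rw [if_pos (by omega)]
    rcases max_cases ((v1 : ℤ) - y) 0 with ⟨c3, c4⟩ | ⟨c3, c4⟩ <;> rw [c3] <;> omega
  have s2 : SM ({v1} + ({v2} + M)) (Pool.Agent.TH151.N13.Rg (fun _ => -1) C) := by
    refine SM_abs v1 _ C ?_ (SM_monoS s1 ?_)
    · intro y h0 h1
      simp only [hC]
      rw [if_pos (by omega)]
      omega
    · rintro p ⟨g1, g2, g3⟩
      refine ⟨g1, ?_, g3⟩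
      simp only at g2 ⊢
      omega
  have s3 : SM ({v1} + ({v2} + M)) (Pool.Agent.TH151.N13.Rg (fun z => -1 + max ((v3 : ℤ) - z) 0)
      (fun z => (d : ℤ) - z)) := by
    refine SM_comap s2 1 0 (-1) (-1) 0 d (by norm_num) ?_
    rintro ⟨x, y⟩ ⟨g1, g2, g3⟩
    simp only [hC] at g1 g2 g3
    by_cases hy : y + (v3 : ℤ) ≤ d
    · rw [if_pos hy] at g3
      refine ⟨(x, (d : ℤ) - x - y), ⟨by simp only; omega, ?_, by simp only; omega⟩, ?_⟩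
      · simp only
        rcases max_cases ((v3 : ℤ) - (d - x - y)) 0 with ⟨c3, c4⟩ | ⟨c3, c4⟩ <;> rw [c3] <;> omega
      · ext
        · simp only; ring
        · simp only; ring
    · rw [if_neg hy] at g3
      omega
  have s4 : SM ({v3} + ({v1} + ({v2} + M))) (Pool.Agent.TH151.N13.Rg (fun _ => -1)
      (fun z => (d : ℤ) - z)) := by
    refine SM_abs v3 _ _ ?_ s3
    intro y h0 h1
    omega
  refine SM_monoS s4 ?_
  rintro p ⟨g1, g2, g3⟩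
  simp only at g2 g3
  exact ⟨by omega, g1, by omega⟩

end Pool.Agent.K6.H83.HX
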