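import Pool.Agent.K6.H83.QH.EmpQ

/-! Emptiness on closed triangles of any shape, arbitrary bounded multiplicities. -/

set_option autoImplicit false

namespace Pool.Agent.K6.H83.HX

open Finset Pool.Agent.TH176.Nag Pool.Agent.TH603.Sur Pool.Agent.TH146.MN Pool.Agent.K6.H96
  Pool.Agent.TH641.UM Pool.Agent.K6.H83.QH

/-- emptiness on a closed triangle, each multiplicity at least sixteen times -/
theorem Emp_tri_rep {ι : Type} [Fintype ι] {w : ι → ℕ} (hpos : ∀ x, 1 ≤ w x) {B : ℝ}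
    (hwB : ∀ x, (w x : ℝ) ≤ B) (h16 : ∀ i, 16 ≤ Fintype.card {j // w j = w i})
    {α β μ ν W H : ℝ} (hW : β = α + W) (hn : 0 < μ + ν) (hWH : (μ + ν) * H = W)
    (hW1 : 12 * B ≤ W) (hH1 : 12 * B ≤ H) (hH0 : 0 < H) (hlt : W * H < ∑ x, (w x : ℝ) ^ 2) :
    Emp w (Reg α β μ ν) := by
  classical
  obtain ⟨n, hnn⟩ : ∃ n : ℝ, n = μ + ν := ⟨_, rfl⟩
  rw [← hnn] at hn hWH
  have hW0 : 0 < W := by rw [← hWH]; positivity
  obtain ⟨S, hS⟩ : ∃ S : ℝ, S = ∑ x, (w x : ℝ) ^ 2 := ⟨_, rfl⟩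
  rw [← hS] at hlt
  have hWH0 : 0 < W * H := by positivity
  have hS0 : 0 < S := by linarith
  have hne : Nonempty ι := by
    by_contra hcon
    rw [not_nonempty_iff] at hcon
    rw [Fintype.sum_empty] at hS
    linarith
  obtain ⟨z0, -, hz0⟩ := exists_max_image (univ : Finset ι) w ⟨hne.some, mem_univ _⟩
  have hpos' : ∀ z, (0 : ℝ) < (w z : ℝ) := fun z => by exact_mod_cast hpos z
  have hU : UU' (fun i => (w i : ℝ)) (2 * (w z0 : ℝ)) := by
    refine U_rep (Fintype.card ι) (fun z => (w z : ℝ)) (w z0 : ℝ) le_rfl hpos'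
      (fun z => by exact_mod_cast hz0 z (mem_univ z)) ⟨z0, rfl⟩ ?_
    intro z
    have h := h16 z
    have e : Fintype.card {j // (w j : ℝ) = (w z : ℝ)} = Fintype.card {j // w j = w z} :=
      Fintype.card_congr (Equiv.subtypeEquivRight fun j => by
        constructor
        · intro h; exact_mod_cast h
        · intro h; exact_mod_cast h)
    rw [e]
    exact h
  have hz1 := hpos' z0
  have hzB := hwB z0
  -- the number of rows put together
  obtain ⟨x, hx1, hxn, hxn2, hxH⟩ : ∃ x : ℕ, 1 ≤ x ∧ 1 ≤ x * n ∧ 4 ≤ x ^ 2 * n ∧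
      4 * B * (x : ℝ) ≤ H := by
    have hB0 : 0 < B := by linarith
    rcases le_total 1 n with h1 | h1
    · refine ⟨2, by norm_num, ?_, ?_, ?_⟩
      · push_cast; linarith
      · push_cast; linarith
      · push_cast; linarith
    · refine ⟨⌈2 / n⌉₊, ?_, ?_, ?_, ?_⟩
      · exact Nat.one_le_ceil_iff.2 (by positivity)
      · have g1 : 2 / n ≤ ⌈2 / n⌉₊ := Nat.le_ceil _
        rw [div_le_iff₀ hn] at g1
        linarith
      · have g1 : 2 / n ≤ ⌈2 / n⌉₊ := Nat.le_ceil _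
        rw [div_le_iff₀ hn] at g1
        have g2 : (2 : ℝ) ≤ ⌈2 / n⌉₊ := by
          have : 2 ≤ 2 / n := by rw [le_div_iff₀ hn]; linarith
          exact this.trans (Nat.le_ceil _)
        have e : (⌈2 / n⌉₊ : ℝ) ^ 2 * n = ⌈2 / n⌉₊ * (⌈2 / n⌉₊ * n) := by ring
        rw [e]
        have g3 : (2 : ℝ) * 2 ≤ ⌈2 / n⌉₊ * (⌈2 / n⌉₊ * n) :=
          mul_le_mul g2 g1 (by norm_num) (by positivity)
        linarith
      · have g1 : (⌈2 / n⌉₊ : ℝ) < 2 / n + 1 := Nat.ceil_lt_add_one (by positivity)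
        have g2 : 2 / n + 1 ≤ 3 / n := by
          rw [div_add_one hn.ne', div_le_div_iff_of_pos_right hn]
          linarith
        have g3 : 4 * B * (⌈2 / n⌉₊ : ℝ) ≤ 4 * B * (3 / n) :=
          mul_le_mul_of_nonneg_left (by linarith) (by positivity)
        have e : 4 * B * (3 / n) = 12 * B / n := by ring
        rw [e] at g3
        refine g3.trans ?_
        rw [div_le_iff₀ hn]
        linarith
  have hx0 : (0 : ℝ) < x := by exact_mod_cast hx1
  have hxn0 : 0 < (x : ℝ) ^ 2 * n := by positivity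
  obtain ⟨H1, hHH⟩ : ∃ H1 : ℝ, H1 = √(S / (x ^ 2 * n)) := ⟨_, rfl⟩
  have hH1s : H1 ^ 2 = S / (x ^ 2 * n) := by
    rw [hHH]; exact Real.sq_sqrt (by positivity)
  have hH10 : 0 < H1 := by rw [hHH]; positivity
  have hH1x : H / x < H1 := by
    have h1 : (H / x) ^ 2 < H1 ^ 2 := by
      rw [hH1s, lt_div_iff₀ hxn0]
      have e : (H / x) ^ 2 * (x ^ 2 * n) = n * H * H := by field_simp
      rw [e, hWH]
      exact hlt
    exact lt_of_pow_lt_pow_left₀ 2 hH10.le h1
  have hup : UU' (fun i => (w i : ℝ)) H1 := by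
    refine UU'.up (by linarith) ?_ ?_ hU
    · have : 4 * B ≤ H / x := by
        rw [le_div_iff₀ hx0]; exact hxH
      linarith
    · rw [← hS, hH1s]
      have : S / (x ^ 2 * n) ≤ S / 4 := div_le_div_of_nonneg_left hS0.le (by norm_num) hxn2
      linarith
  obtain ⟨s, hs⟩ : ∃ s : ℝ, s = √(W * H) / √S := ⟨_, rfl⟩
  have hsS : 0 < √S := Real.sqrt_pos.2 hS0
  have hs0 : 0 < s := by rw [hs]; exact div_pos (Real.sqrt_pos.2 hWH0) hsS
  have hs1 : s < 1 := by
    rw [hs, div_lt_one hsS]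
    exact Real.sqrt_lt_sqrt hWH0.le hlt
  have hsE : s * √S = √(W * H) := by rw [hs]; field_simp
  have h1 := hup w s hs0 (fun i => by
    have h5 : (0 : ℝ) < w i := hpos' i
    nlinarith) 0 (x ^ 2 * n) (by
      rw [zero_add, ← hS, hH1s]
      field_simp)
  rw [← hS, hsE] at h1
  have h2 : TS w (√(W * H)) 0 n := TS.mul x hx1 hxn h1
  have h3 : TS w (√(W * H)) μ ν := TS.toRT (by rw [← hnn]; exact hn) (by rw [← hnn]; exact h2)
  have h4 := h3 α
  have e : √(W * H) * √(μ + ν) = W := by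
    rw [← hnn, ← Real.sqrt_mul hWH0.le]
    have : W * H * n = W ^ 2 := by rw [← hWH]; ring
    rw [this]
    exact Real.sqrt_sq hW0.le
  rw [e, ← hW] at h4
  exact h4

/-- emptiness on a closed triangle -/
theorem EM_tri {M : Multiset ℕ} {B : ℕ} (hB : ∀ x ∈ M, 1 ≤ x ∧ x ≤ B)
    {α β μ ν W H : ℝ} (hW : β = α + W) (hn : 0 < μ + ν) (hWH : (μ + ν) * H = W)
    (hW1 : 12 * (B : ℝ) ≤ W) (hH1 : 12 * (B : ℝ) ≤ H) (hH0 : 0 < H)
    (hlt : W * H + 16 * (B : ℝ) ^ 2 < S2 M) : EM M (Reg α β μ ν) := by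
  classical
  obtain ⟨xs, a1, a2, a3⟩ := Pool.Agent.Y205.AV.group_down (g := 16) (by norm_num) M.card M B
    le_rfl hB
  have h2 : S2 M = Pool.Agent.Y205.AV.sqs M := rfl
  rw [← h2] at a2
  have a4 := a3 (Reg α β μ ν) 0
  rw [add_zero, add_zero] at a4
  apply a4
  have hmem : ∀ j : Fin xs.toList.length, xs.toList.get j ∈ xs := fun j => by
    rw [← Multiset.mem_toList]
    exact List.get_mem _ _
  obtain ⟨w, hw⟩ : ∃ w : (Σ _ : Fin xs.toList.length, Fin 16) → ℕ, w = fun z =>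
    xs.toList.get z.1 := ⟨_, rfl⟩
  have hwB : ∀ z, 1 ≤ w z ∧ w z ≤ B := fun z => by rw [hw]; exact a1 _ (hmem z.1)
  have hsum : ∑ z, w z ^ 2 = 16 * Pool.Agent.Y205.AV.sqs xs := by
    rw [hw, Fintype.sum_sigma]
    simp only [sum_const, card_univ, Fintype.card_fin, smul_eq_mul]
    rw [← mul_sum, Pool.Agent.Y205.AV.sum_get' xs fun x => x ^ 2]
    rfl
  have key := Emp_tri_rep (w := w) (fun z => (hwB z).1) (B := (B : ℝ))
    (fun z => by exact_mod_cast (hwB z).2) (by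
      intro z
      have hinj : Function.Injective (fun i : Fin 16 =>
          (⟨⟨z.1, i⟩, by rw [hw]⟩ : {y : (Σ _ : Fin xs.toList.length, Fin 16) //
            w y = w z})) := by
        intro i j hij
        have := congrArg Subtype.val hij
        simpa using this
      have := Fintype.card_le_of_injective _ hinj
      simpa using this) hW hn hWH hW1 hH1 hH0 (by
      have h5 : ((S2 M : ℕ) : ℝ) ≤ ((16 * Pool.Agent.Y205.AV.sqs xs + 16 * B ^ 2 : ℕ) : ℝ) := by
        exact_mod_cast a2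
      rw [← hsum] at h5
      push_cast at h5
      linarith)
  refine (EM_iff ?_).2 key
  rw [hw]
  unfold ms
  rw [Fintype.sum_sigma]
  have e : ∀ j : Fin xs.toList.length, ∑ _i : Fin 16, ({xs.toList.get j} : Multiset ℕ) =
      Multiset.replicate 16 (xs.toList.get j) := fun j => by
    rw [sum_const, card_univ, Fintype.card_fin, Multiset.nsmul_singleton]
  rw [sum_congr rfl fun j _ => e j,
    Pool.Agent.Y205.AV.sum_get' xs fun x => Multiset.replicate 16 x]
  rfl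

end Pool.Agent.K6.H83.HX
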