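import Pool.Agent.K6.H83.HX.TriS
import Pool.Agent.K6.H83.HX.TriE
import Pool.Agent.TH698.NagT3

/-! Regions with full independence or emptiness, and gluing along a line. -/

set_option autoImplicit false

namespace Pool.Agent.K6.H83.HX

open Finset Pool.Agent.TH176.Nag Pool.Agent.TH603.Sur Pool.Agent.TH641.UM Pool.Agent.K6.H83.QH
  Pool.Agent.Y205.AV

/-- independence for all bounded multisets of cost at most `c` -/
def FS (m l : ℕ) (S : Set (ℤ × ℤ)) (c : ℝ) : Prop :=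
  ∀ M : Multiset ℕ, (∀ x ∈ M, x + 1 ≤ 8 * m) → (sq1 M : ℝ) + l * (m : ℝ) ^ 2 ≤ c → SM M S

/-- emptiness for all bounded multisets with sum of squares greater than `D` -/
def FE (B k : ℕ) (S : Set (ℤ × ℤ)) (D : ℝ) : Prop :=
  ∀ M : Multiset ℕ, (∀ x ∈ M, 1 ≤ x ∧ x ≤ B) → D + k * (B : ℝ) ^ 2 < S2 M → EM M S

theorem FS.mono {m l : ℕ} {S S' : Set (ℤ × ℤ)} {c c' : ℝ} (h : FS m l S c) (hS : S ⊆ S')
    (hc : c' ≤ c) : FS m l S' c' :=
  fun M hM hM1 => Sur.mono (h M hM (hM1.trans hc)) hS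

theorem FE.mono {B k : ℕ} {S S' : Set (ℤ × ℤ)} {D D' : ℝ} (h : FE B k S D) (hS : S' ⊆ S)
    (hD : D ≤ D') : FE B k S' D' :=
  fun M hM hM1 => Emp.mono (h M hM (by linarith)) hS

theorem FE.mono_k {B k k' : ℕ} {S : Set (ℤ × ℤ)} {D : ℝ} (h : FE B k S D) (hk : k ≤ k') :
    FE B k' S D := fun M hM hM1 => h M hM (by
  have h1 : (k : ℝ) * (B : ℝ) ^ 2 ≤ k' * (B : ℝ) ^ 2 :=
    mul_le_mul_of_nonneg_right (by exact_mod_cast hk) (by positivity)
  linarith)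

/-- the splitting of a multiset, costs -/
theorem split_sq1 {b : ℕ} (M : Multiset ℕ) : ∀ {c1 c2 : ℝ}, (∀ x ∈ M, x + 1 ≤ b) →
    (sq1 M : ℝ) + (b : ℝ) ^ 2 ≤ c1 + c2 → ∃ M1 M2 : Multiset ℕ, M = M1 + M2 ∧
      (M1 = 0 ∨ (sq1 M1 : ℝ) ≤ c1) ∧ (M2 = 0 ∨ (sq1 M2 : ℝ) ≤ c2) := by
  induction M using Multiset.induction_on with
  | empty => intro c1 c2 _ _; exact ⟨0, 0, by simp, Or.inl rfl, Or.inl rfl⟩
  | cons a M ih =>
    intro c1 c2 hM h
    rw [sq1_cons] at h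
    push_cast at h
    by_cases ha : ((a : ℝ) + 1) ^ 2 ≤ c1
    · obtain ⟨M1, M2, h1, h2, h3⟩ := ih (c1 := c1 - ((a : ℝ) + 1) ^ 2) (c2 := c2)
        (fun x hx => hM x (Multiset.mem_cons_of_mem hx)) (by linarith)
      refine ⟨a ::ₘ M1, M2, by rw [h1, Multiset.cons_add], Or.inr ?_, h3⟩
      rw [sq1_cons]
      push_cast
      rcases h2 with h2 | h2
      · rw [h2]
        have : (sq1 0 : ℕ) = 0 := rfl
        rw [this]
        push_cast
        linarith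
      · linarith
    · push Not at ha
      refine ⟨0, a ::ₘ M, by simp, Or.inl rfl, Or.inr ?_⟩
      rw [sq1_cons]
      push_cast
      have h1 : ((a : ℝ) + 1) ^ 2 ≤ (b : ℝ) ^ 2 := by
        have h2 : ((a + 1 : ℕ) : ℝ) ≤ b := by exact_mod_cast hM a (Multiset.mem_cons_self a M)
        push_cast at h2
        exact pow_le_pow_left₀ (by positivity) h2 2
      linarith

theorem S2_cons (a : ℕ) (M : Multiset ℕ) : S2 (a ::ₘ M) = a ^ 2 + S2 M := by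
  unfold S2; rw [Multiset.map_cons, Multiset.sum_cons]

/-- the splitting of a multiset, sums of squares -/
theorem split_S2 {b : ℕ} (M : Multiset ℕ) : ∀ {c1 c2 : ℝ}, (∀ x ∈ M, x ≤ b) →
    -(b : ℝ) ^ 2 ≤ c1 → 0 ≤ c2 → c1 + c2 + (b : ℝ) ^ 2 < S2 M →
    ∃ M1 M2 : Multiset ℕ, M = M1 + M2 ∧ c1 < S2 M1 ∧ c2 < S2 M2 := by
  induction M using Multiset.induction_on with
  | empty =>
    intro c1 c2 _ h1 h2 h3
    exfalso
    have : ((S2 0 : ℕ) : ℝ) = 0 := by simp [S2]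
    rw [this] at h3
    linarith
  | cons a M ih =>
    intro c1 c2 hM h1 h2 h3
    by_cases hc : c1 < 0
    · refine ⟨0, a ::ₘ M, by simp, ?_, ?_⟩
      · have : ((S2 0 : ℕ) : ℝ) = 0 := by simp [S2]
        rw [this]
        exact hc
      · have : (0 : ℝ) ≤ (b : ℝ) ^ 2 := by positivity
        linarith
    · push Not at hc
      rw [S2_cons] at h3
      push_cast at h3
      have hab : (a : ℝ) ^ 2 ≤ (b : ℝ) ^ 2 := by
        have h4 : (a : ℝ) ≤ b := by exact_mod_cast hM a (Multiset.mem_cons_self a M)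
        exact pow_le_pow_left₀ (by positivity) h4 2
      obtain ⟨M1, M2, g1, g2, g3⟩ := ih (c1 := c1 - (a : ℝ) ^ 2) (c2 := c2)
        (fun x hx => hM x (Multiset.mem_cons_of_mem hx)) (by linarith) h2 (by linarith)
      refine ⟨a ::ₘ M1, M2, by rw [g1, Multiset.cons_add], ?_, g3⟩
      rw [S2_cons]
      push_cast
      linarith

/-- two sets of exponents separated by a line -/
theorem Sur_cut {ι κ : Type} [Fintype ι] [Fintype κ] {w : ι → ℕ} {v : κ → ℕ} {S U : Set (ℤ × ℤ)}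
    (hS0 : ∀ m ∈ S, 0 ≤ m.1 ∧ 0 ≤ m.2) (hU0 : ∀ m ∈ U, 0 ≤ m.1 ∧ 0 ≤ m.2) (a b : ℤ)
    (hcut : ∀ m ∈ S, ∀ m' ∈ U, a * m.1 + b * m.2 < a * m'.1 + b * m'.2)
    (h1 : Sur w S) (h2 : Sur v U) : Sur (Sum.elim w v) (S ∪ U) := by
  classical
  obtain ⟨T1, a1, a2, a3⟩ := h1
  obtain ⟨T2, b1, b2, b3⟩ := h2
  refine ⟨T1 ∪ T2, ?_, ?_, ?_⟩
  · rw [Finset.coe_union]
    exact Set.union_subset_union a1 b1
  · have e : cond (Sum.elim w v) = cond w + cond v := by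
      unfold Pool.Agent.TH603.Sur.cond
      rw [Fintype.sum_sum_type]
      rfl
    rw [Finset.card_union_of_disjoint, a2, b2, e]
    rw [Finset.disjoint_left]
    intro p hp hq
    exact lt_irrefl _ (hcut p (a1 (Finset.mem_coe.2 hp)) p (b1 (Finset.mem_coe.2 hq)))
  · rw [Finset.coe_union]
    exact Pool.Agent.TH698.NagT3.Emp_cut T1.finite_toSet T2.finite_toSet
      (fun p hp => hS0 p (a1 hp)) (fun p hp => hU0 p (b1 hp)) a b
      (fun p hp q hq => hcut p (a1 hp) q (b1 hq)) a3 b3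

theorem FS.glue {m l1 l2 : ℕ} {S U : Set (ℤ × ℤ)} {c1 c2 : ℝ} (h1 : FS m l1 S c1)
    (h2 : FS m l2 U c2) (hS0 : ∀ p ∈ S, 0 ≤ p.1 ∧ 0 ≤ p.2) (hU0 : ∀ p ∈ U, 0 ≤ p.1 ∧ 0 ≤ p.2)
    (a b : ℤ) (hcut : ∀ p ∈ S, ∀ q ∈ U, a * p.1 + b * p.2 < a * q.1 + b * q.2) :
    FS m (l1 + l2 + 64) (S ∪ U) (c1 + c2) := by
  intro M hM h
  push_cast at h
  obtain ⟨M1, M2, e, g1, g2⟩ := split_sq1 (b := 8 * m) M (c1 := c1 - l1 * (m : ℝ) ^ 2)
    (c2 := c2 - l2 * (m : ℝ) ^ 2) hM (by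
      push_cast
      have : (8 * (m : ℝ)) ^ 2 = 64 * m ^ 2 := by ring
      linarith)
  have k1 : SM M1 S := by
    rcases g1 with g1 | g1
    · rw [g1]; exact SM_empty
    · exact h1 M1 (fun x hx => hM x (by rw [e]; exact Multiset.mem_add.2 (Or.inl hx)))
        (by linarith)
  have k2 : SM M2 U := by
    rcases g2 with g2 | g2
    · rw [g2]; exact SM_empty
    · exact h2 M2 (fun x hx => hM x (by rw [e]; exact Multiset.mem_add.2 (Or.inr hx)))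
        (by linarith)
  have k3 := Sur_cut hS0 hU0 a b hcut k1 k2
  exact (SM_iff (by rw [ms_sum, ms_fam, ms_fam, e])).2 k3

theorem FE.glue {B k1 k2 : ℕ} {S U : Set (ℤ × ℤ)} {D1 D2 : ℝ} (h1 : FE B k1 S D1)
    (h2 : FE B k2 U D2) (hSf : S.Finite) (hUf : U.Finite)
    (hS0 : ∀ p ∈ S, 0 ≤ p.1 ∧ 0 ≤ p.2) (hU0 : ∀ p ∈ U, 0 ≤ p.1 ∧ 0 ≤ p.2)
    (hD1 : 0 ≤ D1) (hD2 : 0 ≤ D2)
    (a b : ℤ) (hcut : ∀ p ∈ S, ∀ q ∈ U, a * p.1 + b * p.2 < a * q.1 + b * q.2) :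
    FE B (k1 + k2 + 1) (S ∪ U) (D1 + D2) := by
  intro M hM h
  push_cast at h
  obtain ⟨M1, M2, e, g1, g2⟩ := split_S2 (b := B) M (c1 := D1 + k1 * (B : ℝ) ^ 2)
    (c2 := D2 + k2 * (B : ℝ) ^ 2) (fun x hx => (hM x hx).2) (by
      have : (0 : ℝ) ≤ k1 * (B : ℝ) ^ 2 := by positivity
      have : (0 : ℝ) ≤ (B : ℝ) ^ 2 := by positivity
      linarith) (by positivity) (by linarith)
  have k1 : EM M1 S := h1 M1 (fun x hx => hM x (by rw [e]; exact Multiset.mem_add.2 (Or.inl hx))) g1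
  have k2 : EM M2 U := h2 M2 (fun x hx => hM x (by rw [e]; exact Multiset.mem_add.2 (Or.inr hx))) g2
  have k3 := Pool.Agent.TH698.NagT3.Emp_cut hSf hUf hS0 hU0 a b hcut k1 k2
  exact (EM_iff (by rw [ms_sum, ms_fam, ms_fam, e])).2 k3

/-- open triangles -/
theorem FS_tri {m : ℕ} {α β μ ν W H c : ℝ} (hm : 1 ≤ m)
    (hW : β = α + W) (hn : 0 < μ + ν) (hWH : (μ + ν) * H = W)
    (hW1 : 1280 * (m : ℝ) ≤ W) (hH1 : 1280 * (m : ℝ) ≤ H)
    (hc : c + c / (256 * m) + H / 2 ≤ W * H) : FS m 524672 (RegO α β μ ν) c := by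
  intro M hM h
  have hmR : (1 : ℝ) ≤ m := by exact_mod_cast hm
  refine SM_tri (c := sq1 M + 524672 * m ^ 2) hm hM hW hn hWH hW1 hH1 ?_ le_rfl
  push_cast
  push_cast at h
  have h1 : ((sq1 M : ℝ) + 524672 * (m : ℝ) ^ 2) / (256 * m) ≤ c / (256 * m) :=
    div_le_div_of_nonneg_right h (by positivity)
  linarith

/-- closed triangles -/
theorem FE_tri {B : ℕ} {α β μ ν W H : ℝ} (hW : β = α + W) (hn : 0 < μ + ν)
    (hWH : (μ + ν) * H = W) (hW1 : 12 * (B : ℝ) ≤ W) (hH1 : 12 * (B : ℝ) ≤ H) (hH0 : 0 < H) :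
    FE B 16 (Reg α β μ ν) (W * H) := by
  intro M hM h
  exact EM_tri hM hW hn hWH hW1 hH1 hH0 (by push_cast at h; exact h)

/-- the reduction factor -/
noncomputable def κ (m : ℕ) : ℝ := 256 * m / (256 * m + 1)

theorem κ_spec {m : ℕ} (hm : 1 ≤ m) (D : ℝ) : κ m * D + κ m * D / (256 * m) = D := by
  have hmR : (1 : ℝ) ≤ m := by exact_mod_cast hm
  unfold κ
  field_simp

theorem κ_ge {m : ℕ} (hm : 1 ≤ m) {D : ℝ} (hD : 0 ≤ D) : D - D / (256 * m) ≤ κ m * D := by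
  have h1 := κ_spec hm D
  have hmR : (1 : ℝ) ≤ m := by exact_mod_cast hm
  have h2 : κ m * D / (256 * m) ≤ D / (256 * m) := by
    refine div_le_div_of_nonneg_right ?_ (by positivity)
    have : 0 ≤ κ m * D / (256 * m) := by unfold κ; positivity
    linarith
  linarith

end Pool.Agent.K6.H83.HX
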