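import Pool.Agent.K6.H83.HX.HexS

/-! Emptiness on the polygon left by three large points. -/

set_option autoImplicit false

namespace Pool.Agent.K6.H83.HX

open Finset Pool.Agent.TH176.Nag Pool.Agent.TH603.Sur Pool.Agent.TH641.UM Pool.Agent.K6.H83.QH
  Pool.Agent.Y205.AV

theorem FE.shift {B k j k' : ℕ} {S : Set (ℤ × ℤ)} {D D0 : ℝ} (h : FE B k S D)
    (hD : D ≤ D0 + j * (B : ℝ) ^ 2) (hk : k + j ≤ k') : FE B k' S D0 := by
  intro M hM hM1
  refine h M hM ?_
  have h1 : ((k + j : ℕ) : ℝ) * (B : ℝ) ^ 2 ≤ k' * (B : ℝ) ^ 2 :=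
    mul_le_mul_of_nonneg_right (by exact_mod_cast hk) (by positivity)
  push_cast at h1
  linarith

theorem line_le {h x c R : ℤ} (hh : 0 ≤ h) (hx : x ≤ c) (hc : h * c = R) : h * x ≤ R := by
  rw [← hc]
  exact mul_le_mul_of_nonneg_left hx hh

theorem Hx_finite (d v1 v2 v3 : ℤ) : (Hx d v1 v2 v3).Finite := by
  refine Set.Finite.subset ((Set.finite_Icc (0 : ℤ) d).prod (Set.finite_Icc 0 (d - v3))) ?_
  rintro ⟨x, y⟩ ⟨g1, g2, g3, g4⟩
  simp only at g1 g2 g3 g4
  have h1 := le_max_right (v1 - y) 0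
  have h2 := le_max_right (v2 - y) 0
  exact ⟨⟨g1, by simp only; omega⟩, ⟨g2, by simp only; omega⟩⟩

/-- **Emptiness** on the polygon left by three large points -/
theorem FE_hex {B : ℕ} {d v1 v2 v3 q : ℤ} (hB : 1 ≤ B) (h2 : 0 ≤ v2) (h21 : v2 ≤ v1)
    (h13 : v1 ≤ v3) (hq : q = 12 * B) (hq3 : q ≤ v3) (hgap : v1 + v3 + 2 * q ≤ d) :
    FE B 389 (Hx d v1 v2 v3) ((d : ℝ) ^ 2 - v1 ^ 2 - v2 ^ 2 - v3 ^ 2) := by
  have hq0 : 12 ≤ q := by rw [hq]; omega
  have hqR : (q : ℝ) = 12 * B := by rw [hq]; push_cast; ring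
  have hq2 : (q : ℝ) ^ 2 = 144 * (B : ℝ) ^ 2 := by rw [hqR]; ring
  have hfin := Hx_finite d v1 v2 v3
  have hp0 : ∀ p ∈ Hx d v1 v2 v3, 0 ≤ p.1 ∧ 0 ≤ p.2 := fun p hp => ⟨hp.1, hp.2.1⟩
  have r2 : (0 : ℝ) ≤ v2 := by exact_mod_cast h2
  have r21 : (v2 : ℝ) ≤ v1 := by exact_mod_cast h21
  have r13 : (v1 : ℝ) ≤ v3 := by exact_mod_cast h13
  have rgap : (v1 : ℝ) + v3 + 2 * q ≤ d := by exact_mod_cast hgap
  have rq0 : (0 : ℝ) < q := by exact_mod_cast (by omega : 0 < q)
  -- the top strip
  have top : ∀ k2 : ℤ, 0 ≤ k2 → k2 ≤ v1 →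
      FE B 33 {p | p ∈ Hx d v1 v2 v3 ∧ k2 ≤ p.2} (((d : ℝ) - k2 + v3) * (d - v3 - k2)) := by
    intro k2 hk hk1
    refine FE.mono (FE_strip (B := B) (k := k2) (h := d - v3 - k2) (A := d - k2) (A' := v3) hk
      (by omega) (by omega) (by omega) (by omega) (by omega) (by omega)) ?_
      (le_of_eq (by push_cast; ring))
    rintro ⟨x, y⟩ ⟨⟨g1, g2, g3, g4⟩, g5⟩
    simp only at g1 g2 g3 g4 g5
    have c1 := le_max_right (v1 - y) 0
    have c2 := le_max_right (v2 - y) 0
    refine ⟨g1, g5, by simp only; omega, ?_⟩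
    exact line_le (c := d - y) (by omega) (by omega) (by ring)
  rcases le_or_gt q v2 with c1 | c1
  · have low : FE B 33 {p | p ∈ Hx d v1 v2 v3 ∧ p.2 < v2} ((2 * (d : ℝ) - 2 * v1 - v2) * v2) := by
      refine FE.mono (FE_strip (B := B) (k := 0) (h := v2) (A := d - v1 - v2) (A' := d - v1) le_rfl
        (by omega) (by omega) (by omega) (by omega) (by omega) (by omega)) ?_
        (le_of_eq (by push_cast; ring))
      rintro ⟨x, y⟩ ⟨⟨g1, g2, g3, g4⟩, g5⟩
      simp only at g1 g2 g3 g4 g5
      have c1 := le_max_left (v1 - y) 0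
      have c2 := le_max_left (v2 - y) 0
      refine ⟨g1, g2, by simp only; omega, ?_⟩
      exact line_le (c := d - v1 - v2 + y) (by omega) (by omega) (by ring)
    have hlow0 : (0 : ℝ) ≤ (2 * (d : ℝ) - 2 * v1 - v2) * v2 := mul_nonneg (by linarith) r2
    rcases le_or_gt (v2 + q) v1 with c2 | c2
    · have mid : FE B 33 {p | p ∈ Hx d v1 v2 v3 ∧ v2 ≤ p.2 ∧ p.2 < v1}
          ((2 * ((d : ℝ) - v1)) * (v1 - v2)) := by
        refine FE.mono (FE_strip (B := B) (k := v2) (h := v1 - v2) (A := d - v1) (A' := d - v1) h2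
          (by omega) (by omega) (by omega) (by omega) (by omega) (by omega)) ?_
          (le_of_eq (by push_cast; ring))
        rintro ⟨x, y⟩ ⟨⟨g1, g2, g3, g4⟩, g5, g6⟩
        simp only at g1 g2 g3 g4 g5 g6
        have c1 := le_max_left (v1 - y) 0
        have c2 := le_max_right (v2 - y) 0
        refine ⟨g1, g5, by simp only; omega, ?_⟩
        exact line_le (c := d - v1) (by omega) (by omega) (by ring)
      have k1 := FE.glue low mid (hfin.subset fun p hp => hp.1) (hfin.subset fun p hp => hp.1)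
        (fun p hp => hp0 p hp.1) (fun p hp => hp0 p hp.1) hlow0
        (mul_nonneg (by linarith) (by linarith)) 0 1 (by
          intro p hp q hq
          have h1 := hp.2
          have h2 := hq.2.1
          linarith)
      have k2 := FE.glue k1 (top v1 (by omega) le_rfl) (hfin.subset (by
          rintro p (hp | hp)
          · exact hp.1
          · exact hp.1)) (hfin.subset fun p hp => hp.1) (by
          rintro p (hp | hp)
          · exact hp0 p hp.1
          · exact hp0 p hp.1) (fun p hp => hp0 p hp.1)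
        (add_nonneg hlow0 (mul_nonneg (by linarith) (by linarith)))
        (mul_nonneg (by linarith) (by linarith)) 0 1 (by
          rintro p (hp | hp) q hq
          · have h1 := hp.2
            have h2 := hq.2
            linarith
          · have h1 := hp.2.2
            have h2 := hq.2
            linarith)
      refine FE.shift (j := 0) (FE.mono k2 ?_ le_rfl) ?_ (by norm_num)
      · intro p hp
        rcases lt_or_ge p.2 v2 with e1 | e1
        · exact Or.inl (Or.inl ⟨hp, e1⟩)
        · rcases lt_or_ge p.2 v1 with e2 | e2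
          · exact Or.inl (Or.inr ⟨hp, e1, e2⟩)
          · exact Or.inr ⟨hp, e2⟩
      · push_cast
        apply le_of_eq
        ring
    · have k2 := FE.glue low (top v2 h2 h21) (hfin.subset fun p hp => hp.1)
        (hfin.subset fun p hp => hp.1) (fun p hp => hp0 p hp.1) (fun p hp => hp0 p hp.1) hlow0
        (mul_nonneg (by linarith) (by linarith)) 0 1 (by
          intro p hp q hq
          have h1 := hp.2
          have h2 := hq.2
          linarith)
      refine FE.shift (j := 144) (FE.mono k2 ?_ le_rfl) ?_ (by norm_num)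
      · intro p hp
        rcases lt_or_ge p.2 v2 with e1 | e1
        · exact Or.inl ⟨hp, e1⟩
        · exact Or.inr ⟨hp, e1⟩
      · push_cast
        rw [← hq2]
        have e1 : ((v1 : ℝ) - v2) ^ 2 ≤ (q : ℝ) ^ 2 := by
          have e2 : (v1 : ℝ) ≤ v2 + q := by exact_mod_cast c2.le
          exact pow_le_pow_left₀ (by linarith) (by linarith) 2
        nlinarith
  · have e0 : (v2 : ℝ) ^ 2 ≤ (q : ℝ) ^ 2 := pow_le_pow_left₀ r2 (by exact_mod_cast c1.le) 2
    rcases le_or_gt q v1 with c2 | c2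
    · have mid : FE B 33 {p | p ∈ Hx d v1 v2 v3 ∧ p.2 < v1} ((2 * ((d : ℝ) - v1)) * v1) := by
        refine FE.mono (FE_strip (B := B) (k := 0) (h := v1) (A := d - v1) (A' := d - v1) le_rfl
          (by omega) (by omega) (by omega) (by omega) (by omega) (by omega)) ?_
          (le_of_eq (by push_cast; ring))
        rintro ⟨x, y⟩ ⟨⟨g1, g2, g3, g4⟩, g5⟩
        simp only at g1 g2 g3 g4 g5
        have c1 := le_max_left (v1 - y) 0
        have c2 := le_max_right (v2 - y) 0
        refine ⟨g1, g2, by simp only; omega, ?_⟩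
        exact line_le (c := d - v1) (by omega) (by omega) (by ring)
      have k2 := FE.glue mid (top v1 (by omega) le_rfl) (hfin.subset fun p hp => hp.1)
        (hfin.subset fun p hp => hp.1) (fun p hp => hp0 p hp.1) (fun p hp => hp0 p hp.1)
        (mul_nonneg (by linarith) (by linarith))
        (mul_nonneg (by linarith) (by linarith)) 0 1 (by
          intro p hp q hq
          have h1 := hp.2
          have h2 := hq.2
          linarith)
      refine FE.shift (j := 144) (FE.mono k2 ?_ le_rfl) ?_ (by norm_num)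
      · intro p hp
        rcases lt_or_ge p.2 v1 with e1 | e1
        · exact Or.inl ⟨hp, e1⟩
        · exact Or.inr ⟨hp, e1⟩
      · push_cast
        rw [← hq2]
        nlinarith
    · have e1 : (v1 : ℝ) ^ 2 ≤ (q : ℝ) ^ 2 :=
        pow_le_pow_left₀ (by linarith) (by exact_mod_cast c2.le) 2
      refine FE.shift (j := 288) (FE.mono (top 0 le_rfl (by omega)) ?_ le_rfl) ?_ (by norm_num)
      · intro p hp
        exact ⟨hp, hp.2.1⟩
      · push_cast
        have : (288 : ℝ) * (B : ℝ) ^ 2 = 2 * (q : ℝ) ^ 2 := by rw [hq2]; ring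
        rw [this]
        nlinarith

end Pool.Agent.K6.H83.HX
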