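import Pool.Agent.K6.H83.HX.Strip

/-! Independence on the polygon left by three large points. -/

set_option autoImplicit false

namespace Pool.Agent.K6.H83.HX

open Finset Pool.Agent.TH176.Nag Pool.Agent.TH603.Sur Pool.Agent.TH641.UM Pool.Agent.K6.H83.QH
  Pool.Agent.Y205.AV

/-- the polygon left by three large points -/
def Hx (d v1 v2 v3 : ℤ) : Set (ℤ × ℤ) :=
  {p | 0 ≤ p.1 ∧ 0 ≤ p.2 ∧ p.2 + v3 ≤ d ∧
    p.1 + p.2 + max (v1 - p.2) 0 + max (v2 - p.2) 0 ≤ d}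

theorem line_lt {n z y A A' c0 c1 x c : ℤ} (hz : 0 ≤ z) (hy : 0 ≤ y) (_hn : n = z + y)
    (hn0 : 0 < n) (hA : A ≤ c0) (hA' : A' ≤ c1) (hc : n * c = z * c0 + y * c1)
    (hx : n * x < z * A + y * A') : x < c := by
  have h1 : z * A ≤ z * c0 := mul_le_mul_of_nonneg_left hA hz
  have h2 : y * A' ≤ y * c1 := mul_le_mul_of_nonneg_left hA' hy
  have h3 : n * x < n * c := by rw [hc]; linarith
  exact lt_of_mul_lt_mul_left h3 hn0.le

/-- the numbers of the strips -/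
theorem hex_num {d v1 v2 v3 Q a u b : ℤ} (h2 : 0 ≤ v2) (h21 : v2 ≤ v1) (h13 : v1 ≤ v3)
    (hQ : 8 ≤ Q) (hgap : v1 + v3 + 3 * Q ≤ d)
    (ha : (a = v2 ∧ u = v1 ∧ b = v1) ∨ (a = v2 ∧ u = v1 ∧ b = v2 + Q ∧ v1 ≤ v2 + Q) ∨
      (a = Q ∧ v2 ≤ Q ∧ u = v1 ∧ b = v1) ∨ (a = Q ∧ v2 ≤ Q ∧ u = v1 ∧ b = 2 * Q ∧ v1 ≤ 2 * Q) ∨
      (a = Q ∧ u = Q ∧ b = 2 * Q ∧ v1 ≤ Q)) :
    (d + 1) * (d + 2) - v1 * (v1 + 1) - v2 * (v2 + 1) - v3 * (v3 + 1) ≤
      (d - v1 - v2 + (d + 1 - u) + 1) * (a + 1) + (d - u + (d + 1 - b) + 1) * (b - a + 1) +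
      (d + 1 - b + v3 + 1) * (d - v3 + 1 - b + 1) + 13 * Q ^ 2 := by
  rcases ha with ⟨ea, eu, eb⟩ | ⟨ea, eu, eb, h5⟩ | ⟨ea, h4, eu, eb⟩ |
    ⟨ea, h4, eu, eb, h5⟩ | ⟨ea, eu, eb, h5⟩ <;> rw [ea, eu, eb]
  · nlinarith [sq_nonneg Q]
  · have e1 : 0 ≤ (v1 - v2) * (v2 + Q - v1) := mul_nonneg (by omega) (by omega)
    have e2 : (v1 - v2) * Q ≤ Q * Q := mul_le_mul_of_nonneg_right (by omega) (by omega)
    have e3 : 8 * Q ≤ Q * Q := mul_le_mul_of_nonneg_right hQ (by omega)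
    nlinarith
  · have e1 : v2 * Q ≤ Q * Q := mul_le_mul_of_nonneg_right h4 (by omega)
    nlinarith [sq_nonneg v2]
  · have e1 : v2 * Q ≤ Q * Q := mul_le_mul_of_nonneg_right h4 (by omega)
    have e2 : v1 * Q ≤ 2 * Q * Q := mul_le_mul_of_nonneg_right h5 (by omega)
    have e3 : 8 * Q ≤ Q * Q := mul_le_mul_of_nonneg_right hQ (by omega)
    nlinarith [sq_nonneg v2, sq_nonneg v1]
  · have e1 : v1 * Q ≤ Q * Q := mul_le_mul_of_nonneg_right h5 (by omega)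
    have e2 : v2 * Q ≤ Q * Q := mul_le_mul_of_nonneg_right (by omega) (by omega)
    have e3 : 8 * Q ≤ Q * Q := mul_le_mul_of_nonneg_right hQ (by omega)
    nlinarith [sq_nonneg v2, sq_nonneg v1]

/-- **Independence** on the polygon left by three large points -/
theorem FS_hex {m : ℕ} {d v1 v2 v3 Q : ℤ} (hm : 1 ≤ m) (h2 : 0 ≤ v2) (h21 : v2 ≤ v1)
    (h13 : v1 ≤ v3) (hQe : Q = 1280 * m) (hQ3 : Q ≤ v3) (hgap : v1 + v3 + 3 * Q ≤ d) :
    FS m 3148352 (Hx d v1 v2 v3) (κ m * ((d + 1) * (d + 2) - v1 * (v1 + 1) - v2 * (v2 + 1) -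
      v3 * (v3 + 1) - 13 * Q ^ 2)) := by
  have hQ : 1280 ≤ Q := by rw [hQe]; omega
  obtain ⟨a, u, b, hab⟩ : ∃ a u b : ℤ, (a = v2 ∧ u = v1 ∧ b = v1 ∧ Q ≤ v2 ∧ v2 + Q ≤ v1) ∨
      (a = v2 ∧ u = v1 ∧ b = v2 + Q ∧ v1 ≤ v2 + Q ∧ Q ≤ v2) ∨
      (a = Q ∧ v2 ≤ Q ∧ u = v1 ∧ b = v1 ∧ 2 * Q ≤ v1) ∨
      (a = Q ∧ v2 ≤ Q ∧ u = v1 ∧ b = 2 * Q ∧ v1 ≤ 2 * Q ∧ Q ≤ v1) ∨
      (a = Q ∧ u = Q ∧ b = 2 * Q ∧ v1 ≤ Q) := by
    rcases le_or_gt Q v2 with c1 | c1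
    · rcases le_or_gt (v2 + Q) v1 with c2 | c2
      · exact ⟨v2, v1, v1, Or.inl ⟨rfl, rfl, rfl, c1, c2⟩⟩
      · exact ⟨v2, v1, v2 + Q, Or.inr (Or.inl ⟨rfl, rfl, rfl, c2.le, c1⟩)⟩
    · rcases le_or_gt (2 * Q) v1 with c2 | c2
      · exact ⟨Q, v1, v1, Or.inr (Or.inr (Or.inl ⟨rfl, c1.le, rfl, rfl, c2⟩))⟩
      · rcases le_or_gt Q v1 with c3 | c3
        · exact ⟨Q, v1, 2 * Q, Or.inr (Or.inr (Or.inr (Or.inl ⟨rfl, c1.le, rfl, rfl, c2.le, c3⟩)))⟩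
        · exact ⟨Q, Q, 2 * Q, Or.inr (Or.inr (Or.inr (Or.inr ⟨rfl, rfl, rfl, c3.le⟩)))⟩
  have b1 : Q ≤ a := by omega
  have b2 : v2 ≤ a := by omega
  have b3 : a + Q ≤ b := by omega
  have b4 : v1 ≤ b := by omega
  have b5 : v1 ≤ u := by omega
  have b6 : a ≤ u := by omega
  have b7 : u ≤ b := by omega
  have b8 : b ≤ v1 + 2 * Q := by omega
  have b9 : v1 + v2 ≤ u + a := by omega
  have hnum := hex_num (d := d) (v3 := v3) (Q := Q) (a := a) (u := u) (b := b) h2 h21 h13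
    (by omega) hgap (by
      rcases hab with h | h | h | h | h
      · exact Or.inl ⟨h.1, h.2.1, h.2.2.1⟩
      · exact Or.inr (Or.inl ⟨h.1, h.2.1, h.2.2.1, h.2.2.2.1⟩)
      · exact Or.inr (Or.inr (Or.inl ⟨h.1, h.2.1, h.2.2.1, h.2.2.2.1⟩))
      · exact Or.inr (Or.inr (Or.inr (Or.inl ⟨h.1, h.2.1, h.2.2.1, h.2.2.2.1, h.2.2.2.2.1⟩)))
      · exact Or.inr (Or.inr (Or.inr (Or.inr ⟨h.1, h.2.1, h.2.2.1, h.2.2.2⟩))))
  clear hab
  have f1 := FS_strip (m := m) (k := 0) (N := a) (A := d - v1 - v2) (A' := d + 1 - u) hm le_rfl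
    (by omega) (by omega) (by omega)
  have f2 := FS_strip (m := m) (k := a) (N := b - a) (A := d - u) (A' := d + 1 - b) hm (by omega)
    (by omega) (by omega) (by omega)
  have f3 := FS_strip (m := m) (k := b) (N := d - v3 + 1 - b) (A := d + 1 - b) (A' := v3) hm
    (by omega) (by omega) (by omega) (by omega)
  have g1 := FS.glue f1 f2 (fun p hp => ⟨hp.1, hp.2.1⟩)
    (fun p hp => ⟨hp.1, le_trans (by omega) hp.2.1⟩) 0 1 (by
      intro p hp q hq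
      have h1 := hp.2.2.1
      have h2 := hq.2.1
      omega)
  have g2 := FS.glue g1 f3 (by
      rintro p (hp | hp)
      · exact ⟨hp.1, hp.2.1⟩
      · exact ⟨hp.1, le_trans (by omega) hp.2.1⟩)
    (fun p hp => ⟨hp.1, le_trans (by omega) hp.2.1⟩) 0 1 (by
      rintro p (hp | hp) q hq
      · have h1 := hp.2.2.1
        have h2 := hq.2.1
        omega
      · have h1 := hp.2.2.1
        have h2 := hq.2.1
        omega)
  refine FS.mono g2 ?_ ?_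
  · rintro ⟨x, y⟩ ((hp | hp) | hp)
    · obtain ⟨k1, k2, k3, k4⟩ := hp
      simp only at k1 k2 k3 k4
      have q1 : x < d + 1 - y := line_lt (z := 0 + a - y) (y := y - 0 + 1) (n := a + 1)
        (c0 := d + 2) (c1 := d + 1 - a) (by omega) (by omega) (by ring) (by omega) (by omega)
        (by omega) (by ring) k4
      have q2 : x < d + 1 - v1 := line_lt (z := 0 + a - y) (y := y - 0 + 1) (n := a + 1)
        (c0 := d + 1 - v1) (c1 := d + 1 - v1) (by omega) (by omega) (by ring) (by omega) (by omega)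
        (by omega) (by ring) k4
      have q3 : x < d + 1 - v2 := line_lt (z := 0 + a - y) (y := y - 0 + 1) (n := a + 1)
        (c0 := d + 1 - v2) (c1 := d + 1 - v2) (by omega) (by omega) (by ring) (by omega) (by omega)
        (by omega) (by ring) k4
      have q4 : x < d + 1 - v1 - v2 + y := line_lt (z := 0 + a - y) (y := y - 0 + 1) (n := a + 1)
        (c0 := d - v1 - v2) (c1 := d + 1 - v1 - v2 + a) (by omega) (by omega) (by ring) (by omega)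
        (by omega) (by omega) (by ring) k4
      refine ⟨k1, k2, by simp only; omega, ?_⟩
      simp only
      rcases max_cases (v1 - y) 0 with ⟨c1, c2⟩ | ⟨c1, c2⟩ <;>
        rcases max_cases (v2 - y) 0 with ⟨c3, c4⟩ | ⟨c3, c4⟩ <;> rw [c1, c3] <;> omega
    · obtain ⟨k1, k2, k3, k4⟩ := hp
      simp only at k1 k2 k3 k4
      have q1 : x < d + 1 - y := line_lt (z := a + (b - a) - y) (y := y - a + 1) (n := b - a + 1)
        (c0 := d + 2 - a) (c1 := d + 1 - b) (by omega) (by omega) (by ring) (by omega) (by omega)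
        (by omega) (by ring) k4
      have q2 : x < d + 1 - v1 := line_lt (z := a + (b - a) - y) (y := y - a + 1)
        (n := b - a + 1)
        (c0 := d + 1 - v1) (c1 := d + 1 - v1) (by omega) (by omega) (by ring) (by omega) (by omega)
        (by omega) (by ring) k4
      refine ⟨k1, by simp only; omega, by simp only; omega, ?_⟩
      simp only
      rcases max_cases (v1 - y) 0 with ⟨c1, c2⟩ | ⟨c1, c2⟩ <;>
        rcases max_cases (v2 - y) 0 with ⟨c3, c4⟩ | ⟨c3, c4⟩ <;> rw [c1, c3] <;> omega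
    · obtain ⟨k1, k2, k3, k4⟩ := hp
      simp only at k1 k2 k3 k4
      have q1 : x < d + 1 - y := line_lt (z := b + (d - v3 + 1 - b) - y) (y := y - b + 1)
        (n := d - v3 + 1 - b + 1)
        (c0 := d + 2 - b) (c1 := v3) (by omega) (by omega) (by ring) (by omega) (by omega)
        (by omega) (by ring) k4
      refine ⟨k1, by simp only; omega, by simp only; omega, ?_⟩
      simp only
      rcases max_cases (v1 - y) 0 with ⟨c1, c2⟩ | ⟨c1, c2⟩ <;>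
        rcases max_cases (v2 - y) 0 with ⟨c3, c4⟩ | ⟨c3, c4⟩ <;> rw [c1, c3] <;> omega
  · rw [← mul_add, ← mul_add]
    refine mul_le_mul_of_nonneg_left ?_ (by unfold κ; positivity)
    have hR : (((d + 1) * (d + 2) - v1 * (v1 + 1) - v2 * (v2 + 1) - v3 * (v3 + 1) : ℤ) : ℝ) ≤
      (((d - v1 - v2 + (d + 1 - u) + 1) * (a + 1) + (d - u + (d + 1 - b) + 1) * (b - a + 1) +
      (d + 1 - b + v3 + 1) * (d - v3 + 1 - b + 1) + 13 * Q ^ 2 : ℤ) : ℝ) := by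
      exact_mod_cast hnum
    push_cast at hR ⊢
    linarith

end Pool.Agent.K6.H83.HX
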