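import Pool.Agent.K6.H83.HX.Small
import Pool.Agent.K6.H83.QH.LeafD
import Pool.Agent.K6.H83.HX.Cond

/-! The corank of a leaf, for any large points with full independence and emptiness. -/

set_option autoImplicit false

namespace Pool.Agent.K6.H83.HX

open Finset Pool.Agent.TH176.Nag Pool.Agent.TH603.Sur Pool.Agent.TH641.UM Pool.Agent.TH2.NU
  Pool.Agent.Y205.MD Pool.Agent.Y205.FW Pool.Agent.K6.H83.QH Pool.Agent.Y205.AV

/-- further points -/
theorem crkM_addN {S : Finset (ℤ × ℤ)} (hpos : ∀ u ∈ S, 0 ≤ u.1 ∧ 0 ≤ u.2) (M N : Multiset ℕ) :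
    crkM S M ≤ crkM S (M + N) + cM N := by
  classical
  obtain ⟨w, hw⟩ : ∃ w : Fin M.toList.length ⊕ Fin N.toList.length → ℕ,
    w = Sum.elim (fam M) (fun _ => 0) := ⟨_, rfl⟩
  obtain ⟨v, hv⟩ : ∃ v : Fin M.toList.length ⊕ Fin N.toList.length → ℕ,
    v = Sum.elim (fam M) (fam N) := ⟨_, rfl⟩
  have h1 := crk_cond hpos (∑ i, v i) (w := w) (v := v) (by
    rw [hw, hv]
    rintro (i | i)
    · exact le_rfl
    · exact Nat.zero_le _) (Nat.le_add_left _ _)
  have h2 : crkM S (M + N) = crk S v := by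
    refine crkM_eq fun t => ?_
    rw [hv, Fintype.sum_sum_type, Multiset.map_add, Multiset.sum_add]
    congr 1
    · exact sum_vec M t
    · exact sum_vec N t
  have h3 : cond v = cM M + cM N := by
    rw [cond_eq, hv, ms_sum, ms_fam, ms_fam, cM_add]
  have h4 : cond w = cM M := by
    rw [hw]
    have : cond (Sum.elim (fam M) (fun _ : Fin N.toList.length => 0)) = cond (fam M) := by
      unfold Pool.Agent.TH603.Sur.cond
      rw [Fintype.sum_sum_type]
      simp
    rw [this, cond_eq, ms_fam]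
  have h5 : crkM S M ≤ crk S w := by
    obtain ⟨T, g1, g2, g3⟩ := crk_spec S w
    refine crk_le ⟨T, g1, g2, ?_⟩
    refine Pool.Agent.TH745.MN.Emp_drop Sum.inl ?_ g3
    rw [hw]
    rintro (i | i) hi
    · exact ⟨i, rfl, le_rfl⟩
    · exact absurd rfl hi
  omega

theorem S2_replicate (k x : ℕ) : S2 (Multiset.replicate k x) = k * x ^ 2 := by
  unfold S2
  rw [Multiset.map_replicate, Multiset.sum_replicate, smul_eq_mul]

theorem cM_replicate (k x : ℕ) : cM (Multiset.replicate k x) = k * (x + 1).choose 2 := by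
  unfold cM
  rw [Multiset.map_replicate, Multiset.sum_replicate, smul_eq_mul]

/-- the corank from emptiness, with further points of the largest multiplicity -/
theorem crk_further {M V : Multiset ℕ} {d m Δ : ℕ} (hm : 1 ≤ m)
    (hM : ∀ x ∈ M, 1 ≤ x ∧ x ≤ 8 * m)
    (hemp : ∀ M' : Multiset ℕ, (∀ x ∈ M', 1 ≤ x ∧ x ≤ 8 * m) →
      Δ + 4916224 * (m * m) < S2 M' → EM (V + M') (TZ d)) :
    crkM (TF d) (V + M) = 0 ∨ ∃ Z : ℕ, 2 * crkM (TF d) (V + M) ≤ 8 * (m * Z) + Z ∧
      8 * (m * Z) + S2 M ≤ Δ + 4916288 * (m * m) := by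
  have hposS : ∀ u ∈ TF d, 0 ≤ u.1 ∧ 0 ≤ u.2 := by
    intro u hu
    have h1 : u ∈ TZ d := by rw [← coe_TF]; exact mem_coe.2 hu
    exact ⟨h1.1, h1.2.1⟩
  rcases Nat.lt_or_ge (Δ + 4916224 * (m * m)) (S2 M) with h1 | h1
  · exact Or.inl (crkM_of_EM (hemp M hM h1))
  · right
    obtain ⟨R, hR⟩ : ∃ R, R + S2 M = Δ + 4916224 * (m * m) :=
      ⟨Δ + 4916224 * (m * m) - S2 M, by omega⟩
    obtain ⟨k, hk⟩ : ∃ k, k = R / (64 * (m * m)) + 1 := ⟨_, rfl⟩
    have hmm : 0 < 64 * (m * m) := by positivity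
    have k1 : R < k * (64 * (m * m)) := by
      have := Nat.lt_div_mul_add (a := R) hmm
      rw [hk, add_mul, one_mul]
      exact this
    have k2 : k * (64 * (m * m)) ≤ R + 64 * (m * m) := by
      have := Nat.div_mul_le_self R (64 * (m * m))
      rw [hk, add_mul, one_mul]
      omega
    obtain ⟨N, hN⟩ : ∃ N, N = Multiset.replicate k (8 * m) := ⟨_, rfl⟩
    have hS2N : S2 N = k * (64 * (m * m)) := by
      rw [hN, S2_replicate]; ring
    have hE : EM (V + (M + N)) (TZ d) := by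
      refine hemp _ ?_ ?_
      · intro x hx
        rcases Multiset.mem_add.1 hx with hx | hx
        · exact hM x hx
        · rw [hN] at hx
          rw [Multiset.eq_of_mem_replicate hx]
          omega
      · rw [S2_add, hS2N]
        omega
    have h2 := crkM_of_EM hE
    have h3 := crkM_addN hposS (V + M) N
    rw [add_assoc, h2, zero_add] at h3
    have h4 := Pool.Agent.TH2.NU.two_choose (8 * m)
    have h5 : 2 * cM N = 8 * (m * (8 * (m * k))) + 8 * (m * k) := by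
      rw [hN, cM_replicate]
      calc 2 * (k * (8 * m + 1).choose 2) = k * (2 * (8 * m + 1).choose 2) := by ring
        _ = k * (8 * m * (8 * m + 1)) := by rw [h4]
        _ = _ := by ring
    refine ⟨8 * (m * k), by omega, ?_⟩
    have e : 8 * (m * (8 * (m * k))) = k * (64 * (m * m)) := by ring
    rw [e]
    omega

/-- the corank of a leaf -/
theorem leafE {M V : Multiset ℕ} {d m T G0 G1 X e0 e1 L δ Δ c : ℕ} (hm : 1 ≤ m)
    (hM : ∀ x ∈ M, 1 ≤ x ∧ x + 1 ≤ 8 * m)
    (hΔ : Δ + 2 * cM V = (d + 1) * (d + 2)) (hcd : cM (M + V) + G0 = T + G1)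
    (hsur : sq1 M + 24447552 * m ^ 2 + Δ / (256 * m) + 1 ≤ Δ → SM (V + M) (TZ d))
    (hemp : ∀ M' : Multiset ℕ, (∀ x ∈ M', 1 ≤ x ∧ x ≤ 8 * m) →
      Δ + 4916224 * (m * m) < S2 M' → EM (V + M') (TZ d))
    (hδ : 2 * (TF d).card = 2 * T + δ ∨ 2 * (TF d).card + δ = 2 * T)
    (hc : (TF d).card ≤ c + T) (hgain : 56 * X ≤ 2 * (G0 + G1))
    (hLl : 17 * M.sum ≤ 136 * X + 4 * G1 + 17 * e1) (hn : M.card ≤ X + e0)
    (he1 : 2 * e1 ≤ 63 * m ^ 2) (he0 : e0 ≤ 63 * m) (hX : L = 64 * X + e1)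
    (hTm : 2 * T ≤ 2 * cM V + m * L) (h : 2 ^ 28 * m ^ 2 ≤ L + δ) :
    crkM (TF d) (V + M) ≤ c + G0 := by
  have hTF : 2 * (TF d).card = (d + 1) * (d + 2) := by
    rw [card_TF]
    exact Pool.Agent.TH2.NU.two_choose (d + 1)
  have hcv : cM (M + V) = cM M + cM V := cM_add _ _
  have htw := two_cMS M
  have hsq := sq1_eqQ M
  obtain ⟨q, hq⟩ : ∃ q, q = Δ / (256 * m) := ⟨_, rfl⟩
  have hq1 : q * (256 * m) ≤ Δ := by rw [hq]; exact Nat.div_mul_le_self _ _
  have hm2 : m ^ 2 = m * m := sq m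
  have hmm : m * 1 ≤ m * m := Nat.mul_le_mul_left _ hm
  obtain ⟨P, hP⟩ : ∃ P, P = m * m := ⟨_, rfl⟩
  rw [← hq, hm2, ← hP] at hsur
  rw [hm2, ← hP] at he1 h
  rw [← hP] at hmm
  have e28 : (2 : ℕ) ^ 28 = 268435456 := by norm_num
  rw [e28] at h
  by_cases hs : sq1 M + 24447552 * P + q + 1 ≤ Δ
  · have h1 := crkM_of_SM (hsur hs)
    have h2 : cM (V + M) = cM (M + V) := by rw [add_comm]
    clear h hTm hemp hsur
    omega
  · clear hsur
    push Not at hs
    have hΔL : Δ ≤ m * L + δ := by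
      rcases hδ with hδ | hδ <;> omega
    have hq3 : 256 * q ≤ L + δ := by
      have h2 : δ * 1 ≤ δ * m := Nat.mul_le_mul_left _ hm
      have h3 : m * (256 * q) ≤ m * (L + δ) := by
        have e4 : m * (256 * q) = q * (256 * m) := by ring
        have e5 : m * (L + δ) = m * L + δ * m := by ring
        rw [e4, e5]
        omega
      exact Nat.le_of_mul_le_mul_left h3 (by omega)
    rcases crk_further hm (fun x hx => ⟨(hM x hx).1, by have := (hM x hx).2; omega⟩) hemp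
      with h0 | ⟨Z, h0, h1⟩
    · rw [h0]; exact Nat.zero_le _
    · rw [← hP] at h1
      have hZ : Z ≤ m * Z := Nat.le_mul_of_pos_left _ (by omega)
      obtain ⟨Y, hY⟩ : ∃ Y, Y = m * Z := ⟨_, rfl⟩
      rw [← hY] at h0 h1 hZ
      have hΔ2 : Δ + 2 * cM V = 2 * (TF d).card := by rw [hΔ, hTF]
      clear hemp hΔ hTF hTm hΔL hq1 hq hP hm2
      generalize crkM (TF d) (V + M) = C at h0 ⊢
      generalize (TF d).card = F at *
      generalize M.sum = s at *
      generalize M.card = r at *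
      generalize S2 M = S at *
      generalize cM M = cm at *
      generalize cM V = cv at *
      generalize sq1 M = sq at *
      by_contra hcon
      push Not at hcon
      rcases hδ with hδ | hδ <;> omega

end Pool.Agent.K6.H83.HX
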