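import Pool.Agent.K6.H83.HX.CoreE
import Pool.Agent.K6.H83.QH.MainD

/-! The expected dimension: three arbitrary multiplicities, arbitrary bounded multiplicities. -/

set_option autoImplicit false

namespace Pool.Agent.K6.H83.HX

open Finset Pool.Agent.TH176.Nag Pool.Agent.TH603.Sur Pool.Agent.TH641.UM Pool.Agent.TH2.NU
  Pool.Agent.H932R3 Pool.Agent.Y205.FW Pool.Agent.K6.H83.QH

/-- exactness for three arbitrary multiplicities and bounded multiplicities -/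
theorem XM_three {G : Multiset ℕ} {v1 v2 v3 d μ : ℕ} (hG1 : ∀ x ∈ G, 1 ≤ x)
    (hGμ : ∀ x ∈ G, x ≤ μ) (h21 : v2 ≤ v1) (h13 : v1 ≤ v3)
    (h1 : v1 + v3 + 2 ^ 12 * (μ + 1) ≤ d)
    (h2 : 2 ^ 28 * (μ + 1) ^ 2 ≤ G.sum + 2 * (((d + 2).choose 2 - cM ({v3} + ({v1} + ({v2} + G)))) +
      (cM ({v3} + ({v1} + ({v2} + G))) - (d + 2).choose 2))) :
    XM (TF d) ({v3} + ({v1} + ({v2} + G))) := by
  have e12 : (2 : ℕ) ^ 12 = 4096 := by norm_num
  rw [e12] at h1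
  have hgap : v1 + v3 + 3840 * (μ + 1) ≤ d := by
    clear h2 e12
    refine le_trans ?_ h1
    exact Nat.add_le_add_left (Nat.mul_le_mul_right _ (by norm_num)) _
  obtain ⟨E, hE⟩ : ∃ E : Multiset ℕ, E = {v3} + ({v1} + {v2}) := ⟨_, rfl⟩
  have hEG : ∀ M : Multiset ℕ, {v3} + ({v1} + ({v2} + M)) = E + M := fun M => by
    rw [hE, add_assoc, add_assoc]
  rw [hEG] at h2 ⊢
  have hcE : 2 * cM E = v1 * (v1 + 1) + v2 * (v2 + 1) + v3 * (v3 + 1) := by
    have t1 := Pool.Agent.TH2.NU.two_choose v1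
    have t2 := Pool.Agent.TH2.NU.two_choose v2
    have t3 := Pool.Agent.TH2.NU.two_choose v3
    rw [hE, cM_add, cM_add, cM_single, cM_single, cM_single]
    omega
  have hle : 2 * cM E ≤ (d + 1) * (d + 2) := by
    rw [hcE]
    have g1 : v1 + v3 ≤ d := by omega
    have g2 : (v1 + v3) * (v1 + v3) ≤ d * d := Nat.mul_le_mul g1 g1
    have g3 : v2 * v2 ≤ v1 * v3 := Nat.mul_le_mul h21 (h21.trans h13)
    nlinarith
  obtain ⟨Δ, hΔ⟩ : ∃ Δ, Δ + 2 * cM E = (d + 1) * (d + 2) :=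
    ⟨(d + 1) * (d + 2) - 2 * cM E, by omega⟩
  have hΔ' : Δ + (v1 * (v1 + 1) + v2 * (v2 + 1) + v3 * (v3 + 1)) = (d + 1) * (d + 2) := by
    rw [← hcE]; exact hΔ
  have hcomm : cM (E + G) = cM (G + E) := by rw [add_comm]
  obtain ⟨C, hC⟩ : ∃ C, C = cM (E + G) := ⟨_, rfl⟩
  obtain ⟨N, hN⟩ : ∃ N, N = (d + 2).choose 2 := ⟨_, rfl⟩
  rw [← hC, ← hN] at h2
  have key := coreE (G := G) (E := E) (m := μ + 1) (d := d) (Δ := Δ)
    (δ := 2 * ((N - C) + (C - N))) (by omega) hΔ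
    (fun x hx => ⟨hG1 x hx, by have := hGμ x hx; omega⟩)
    (fun M' hM' hs => by
      rw [← hEG]
      exact SM3 (m := μ + 1) (Nat.succ_pos μ) hM' h21 h13 hgap hΔ' hs)
    (fun M' hM' hs => by
      rw [← hEG]
      refine EM3 (m := μ + 1) (Nat.succ_pos μ) hM' h21 h13 hgap hΔ' ?_
      rw [sq (μ + 1)]
      exact hs)
    (by rw [card_TF, ← hcomm, ← hC, ← hN]; clear h2 h1; omega) h2
  rw [← hcomm] at key
  have hEx : Ex (TF d) (fam (E + G)) := by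
    unfold Ex
    rw [cond_eq, ms_fam]
    exact key
  exact ⟨fun hc => Emp_of_Ex hEx (by rw [cond_eq, ms_fam]; exact hc),
    fun hc => Sur_of_Ex hEx (by rw [cond_eq, ms_fam]; exact hc)⟩

/-- **Three arbitrary multiplicities, arbitrary bounded multiplicities.** -/
theorem mainE {r : ℕ} {v : Fin (r + 4) → ℕ} (hv : Antitone v) :
    ∃ F : MvPolynomial (Fin (r + 4) × Fin 2) ℚ, F ≠ 0 ∧ ∀ P : Fin (r + 4) → Fin 2 → ℂ,
      MvPolynomial.aeval (fun ij : Fin (r + 4) × Fin 2 => P ij.1 ij.2) F ≠ 0 →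
        ∀ d : ℕ, ((v 0 + v 1 + 2 ^ 12 * (v 3 + 1) ≤ d ∧
            2 ^ 28 * (v 3 + 1) ^ 2 ≤ (∑ i : Fin (r + 1), v i.succ.succ.succ) +
              2 * (((d + 2).choose 2 - ∑ i, (v i + 1).choose 2) +
              ((∑ i, (v i + 1).choose 2) - (d + 2).choose 2))) ∨
            (2 ^ 28 * (v 3 + 1) ^ 2 ≤ (∑ i : Fin (r + 1), v i.succ.succ.succ) ∧
              (v 0 + v 1 + 2 ^ 12 * (v 3 + 1) + 2).choose 2 ≤ ∑ i, (v i + 1).choose 2)) →
          Pool.Agent.H932R3.ExpDim ℂ v P d := by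
  classical
  obtain ⟨w, hw⟩ : ∃ w : Fin (r + 1) → ℕ, w = fun i => v i.succ.succ.succ := ⟨_, rfl⟩
  have hwi : ∀ i, w i = v i.succ.succ.succ := fun i => by rw [hw]
  have hs1 : (∑ i : Fin (r + 1), v i.succ.succ.succ) = ∑ i, w i := by rw [hw]
  rw [hs1]
  obtain ⟨μ, hμ⟩ : ∃ μ, μ = v 3 := ⟨_, rfl⟩
  rw [← hμ]
  have hwμ : ∀ i, w i ≤ μ := fun i => by
    rw [hwi, hμ]
    refine hv ?_
    show (3 : Fin (r + 4)) ≤ i.succ.succ.succ
    rw [Fin.le_def]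
    simp only [Fin.val_succ]
    have : ((3 : Fin (r + 4)) : ℕ) = 3 := rfl
    omega
  have h10 : v 1 ≤ v 0 := hv (Fin.zero_le _)
  have h21 : v 2 ≤ v 1 := hv (by
    rw [Fin.le_def]
    have e1 : ((1 : Fin (r + 4)) : ℕ) = 1 := rfl
    have e2 : ((2 : Fin (r + 4)) : ℕ) = 2 := rfl
    omega)
  obtain ⟨G, hG⟩ : ∃ G : Multiset ℕ, G = (ms w).filter fun x => 1 ≤ x := ⟨_, rfl⟩
  have hG1 : ∀ x ∈ G, 1 ≤ x ∧ ∃ i, w i = x := by
    intro x hx
    rw [hG] at hx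
    obtain ⟨h1, h2⟩ := Multiset.mem_filter.1 hx
    exact ⟨h2, mem_ms h1⟩
  obtain ⟨t, ht⟩ : ∃ t : ℕ, (ms w).filter (fun x => ¬ 1 ≤ x) = t • ({0} : Multiset ℕ) := by
    refine ⟨((ms w).filter (fun x => ¬ 1 ≤ x)).card, ?_⟩
    rw [Multiset.nsmul_singleton]
    refine Multiset.eq_replicate_card.2 fun x hx => ?_
    have := (Multiset.mem_filter.1 hx).2
    omega
  have hmw : ms w = G + t • {0} := by
    rw [hG, ← ht]
    exact (Multiset.filter_add_not _ _).symm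
  have hmv : ms v = {v 0} + ({v 1} + ({v 2} + ms w)) := by
    unfold ms
    rw [Fin.sum_univ_succ, Fin.sum_univ_succ, Fin.sum_univ_succ, hw]
    rfl
  have hms : ms v = ({v 0} + ({v 1} + ({v 2} + G))) + 0 • {1} + t • {0} := by
    rw [hmv, hmw, zero_smul]
    abel
  have hsumG : ∑ i, w i = G.sum := by
    have h1 : (ms w).sum = ∑ i, w i := by
      unfold ms
      rw [Multiset.sum_sum]
      simp
    rw [← h1, hmw, Multiset.sum_add, Multiset.sum_nsmul]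
    simp
  obtain ⟨C, hC⟩ : ∃ C, C = cond v := ⟨_, rfl⟩
  have hC' : ∑ i, (v i + 1).choose 2 = C := by rw [hC]; rfl
  have hCG : C = cM ({v 0} + ({v 1} + ({v 2} + G))) := by
    rw [hC, cond_eq, hms, cM_add, cM_add, cM_smul, cM_smul]
    simp
  rw [hC', hsumG]
  obtain ⟨D, hD⟩ : ∃ D, D = v 0 + v 1 + 2 ^ 12 * (μ + 1) := ⟨_, rfl⟩
  obtain ⟨Q, hQ⟩ : ∃ Q, Q = 2 ^ 28 * (μ + 1) ^ 2 := ⟨_, rfl⟩
  have key : ∀ d, D ≤ d → Q ≤ G.sum + 2 * (((d + 2).choose 2 - C) + (C - (d + 2).choose 2)) →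
      ((d + 2).choose 2 ≤ C → Emp v (TZ d)) ∧ (C ≤ (d + 2).choose 2 → Sur v (TZ d)) := by
    intro d hd hq
    have h1 : XM (TF d) (({v 0} + ({v 1} + ({v 2} + G))) + 0 • {1} + t • {0}) :=
      XM_ones (XM_three (μ := μ) (fun x hx => (hG1 x hx).1) (fun x hx => by
        obtain ⟨-, i, hi⟩ := hG1 x hx
        rw [← hi]
        exact hwμ i) h21 h10 (by rw [add_comm (v 1) (v 0), ← hD]; exact hd)
        (by rw [← hQ, ← hCG]; exact hq))
    unfold XM at h1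
    rw [coe_TF, card_TF, ← hms, ← cond_eq, EM_iff rfl, SM_iff rfl, ← hC] at h1
    exact h1
  rw [← hD, ← hQ]
  obtain ⟨F, hF, h⟩ := expDim_two (w := v)
    (A := fun d => (D ≤ d ∧ Q ≤ G.sum + 2 * (((d + 2).choose 2 - C) + (C - (d + 2).choose 2)) ∧
      (d + 2).choose 2 ≤ C) ∨ (d ≤ D ∧ Q ≤ G.sum ∧ (D + 2).choose 2 ≤ C))
    (B := fun d => D ≤ d ∧ Q ≤ G.sum + 2 * (((d + 2).choose 2 - C) + (C - (d + 2).choose 2)) ∧
      C ≤ (d + 2).choose 2) (C + D) (fun d hd => by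
      rcases hd with hd | hd
      · have h1 : (d + 2).choose 2 = (d + 1) * (d + 2) / 2 := by
          rw [Nat.choose_two_right]
          congr 1
          rw [mul_comm]
          rfl
        have h2 : d ≤ (d + 1) * (d + 2) / 2 := by
          rw [Nat.le_div_iff_mul_le (by norm_num)]
          nlinarith
        have h3 := hd.2.2
        omega
      · omega)
    (fun d hd => by
      rcases hd with hd | hd
      · exact (key d hd.1 hd.2.1).1 hd.2.2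
      · exact Emp.mono ((key D le_rfl (by omega)).1 hd.2.2)
          (Pool.Agent.TH745.MN.TZ_mono hd.1))
    (fun d hd => (key d hd.1 hd.2.1).2 hd.2.2)
  refine ⟨F, hF, fun P hP d hd => h P hP d ?_⟩
  rcases Nat.lt_or_ge d D with h5 | h5
  · rcases hd with hd | hd
    · omega
    · exact Or.inl (Or.inr ⟨h5.le, hd⟩)
  · have h6 : Q ≤ G.sum + 2 * (((d + 2).choose 2 - C) + (C - (d + 2).choose 2)) := by
      rcases hd with hd | hd
      · exact hd.2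
      · omega
    rcases le_total ((d + 2).choose 2) C with h4 | h4
    · exact Or.inl (Or.inl ⟨h5, h6, h4⟩)
    · exact Or.inr ⟨h5, h6, h4⟩

end Pool.Agent.K6.H83.HX
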