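import Pool.Agent.K6.H83.HX.Corn

/-! Three arbitrary multiplicities: independence and emptiness, all cases. -/

set_option autoImplicit false

namespace Pool.Agent.K6.H83.HX

open Finset Pool.Agent.TH176.Nag Pool.Agent.TH603.Sur Pool.Agent.TH641.UM Pool.Agent.K6.H83.QH
  Pool.Agent.Y205.AV

/-- the polygon left by three small points -/
def Hy (d v1 v2 v3 : ℤ) : Set (ℤ × ℤ) :=
  {p | 0 ≤ p.1 ∧ 0 ≤ p.2 ∧
    p.1 + p.2 + max (v1 - p.2) 0 + max (v2 - p.2) 0 + max (v3 - p.2) 0 ≤ d}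

theorem SM_small {M : Multiset ℕ} {d v1 v2 v3 : ℕ} (h12 : v1 + v2 + v3 ≤ d)
    (h : SM M (Hy d v1 v2 v3)) : SM ({v3} + ({v1} + ({v2} + M))) (TZ d) := by
  have s0 : SM M (Pool.Agent.TH151.N13.Rg (fun y => (max ((v1 : ℤ) - y) 0 +
      max ((v3 : ℤ) - y) 0 - 1) + max ((v2 : ℤ) - y) 0) (fun y => (d : ℤ) - y)) := by
    refine SM_comap h (-1) (-1) 0 1 d 0 (by norm_num) ?_
    rintro ⟨x, y⟩ ⟨g1, g2, g4⟩
    simp only at g1 g2 g4
    refine ⟨((d : ℤ) - y - x, y), ⟨g2, ?_, ?_⟩, ?_⟩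
    · simp only; linarith
    · simp only; omega
    · ext
      · simp only; ring
      · simp only; ring
  have s1 := SM_abs (M := M) v2 (fun y => max ((v1 : ℤ) - y) 0 +
      max ((v3 : ℤ) - y) 0 - 1) (fun y => (d : ℤ) - y) (by
    intro y h0 h1
    rcases max_cases ((v1 : ℤ) - y) 0 with ⟨c3, c4⟩ | ⟨c3, c4⟩ <;>
      rcases max_cases ((v3 : ℤ) - y) 0 with ⟨c5, c6⟩ | ⟨c5, c6⟩ <;> rw [c3, c5] <;> omega) s0
  have s2 := SM_abs (M := {v2} + M) v1 (fun y => max ((v3 : ℤ) - y) 0 - 1)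
    (fun y => (d : ℤ) - y) (by
    intro y h0 h1
    rcases max_cases ((v3 : ℤ) - y) 0 with ⟨c5, c6⟩ | ⟨c5, c6⟩ <;> rw [c5] <;> omega)
    (SM_monoS s1 (by
      rintro p ⟨g1, g2, g3⟩
      refine ⟨g1, ?_, g3⟩
      simp only at g2 ⊢
      omega))
  have s3 := SM_abs (M := {v1} + ({v2} + M)) v3 (fun _ => -1)
    (fun y => (d : ℤ) - y) (by
    intro y h0 h1
    omega) (SM_monoS s2 (by
      rintro p ⟨g1, g2, g3⟩
      refine ⟨g1, ?_, g3⟩
      simp only at g2 ⊢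
      omega))
  refine SM_monoS s3 ?_
  rintro p ⟨g1, g2, g3⟩
  simp only at g2 g3
  exact ⟨by omega, g1, by omega⟩

theorem FS_small {m : ℕ} {d v1 v2 v3 Q : ℤ} (hm : 1 ≤ m) (h2 : 0 ≤ v2) (h21 : v2 ≤ v1)
    (h13 : v1 ≤ v3) (hQe : Q = 1280 * m) (hQ3 : v3 < Q) (hgap : v1 + v3 + 3 * Q ≤ d) :
    FS m 3148352 (Hy d v1 v2 v3) (κ m * ((d + 1) * (d + 2) - v1 * (v1 + 1) - v2 * (v2 + 1) -
      v3 * (v3 + 1) - 13 * Q ^ 2)) := by
  have hQ : 1280 ≤ Q := by rw [hQe]; omega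
  have hQR : (Q : ℝ) = 1280 * m := by rw [hQe]; push_cast; ring
  have rQ : (1280 : ℝ) ≤ Q := by exact_mod_cast hQ
  have r2 : (0 : ℝ) ≤ v2 := by exact_mod_cast h2
  have r21 : (v2 : ℝ) ≤ v1 := by exact_mod_cast h21
  have r13 : (v1 : ℝ) ≤ v3 := by exact_mod_cast h13
  have rQ3 : (v3 : ℝ) < Q := by exact_mod_cast hQ3
  have rgap : (v1 : ℝ) + v3 + 3 * Q ≤ d := by exact_mod_cast hgap
  have f1 := FS_strip (m := m) (k := 0) (N := Q) (A := d - 1 - v1 - v2 - v3) (A' := d + 1 - Q) hm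
    le_rfl (by omega) (by omega) (by omega)
  have f2 : FS m 524672 (RegO (-1) ((d : ℝ) + 2 - Q) 0 1)
      (κ m * (((d : ℝ) + 3 - Q) * (d + 3 - Q) - (d + 3 - Q) / 2)) := by
    refine FS_tri hm (W := (d : ℝ) + 3 - Q) (H := (d : ℝ) + 3 - Q) (by ring) (by norm_num)
      (by ring) (by linarith) (by linarith) ?_
    rw [κ_spec hm]
    linarith
  have f3 : FS m 524672 {p : ℤ × ℤ | 0 ≤ p.1 ∧ Q ≤ p.2 ∧ p.1 + p.2 ≤ d}
      (κ m * (((d : ℝ) + 3 - Q) * (d + 3 - Q) - (d + 3 - Q) / 2)) := by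
    refine FS.comap f2 1 (Q - 1) (by norm_num) ?_
    rintro ⟨x, y⟩ ⟨g1, g2, g3⟩
    simp only at g1 g2 g3
    have gx : (-1 : ℤ) < x := by
      have : (-1 : ℝ) < x := by linarith
      exact_mod_cast this
    have gy : x + y < d + 2 - Q := by
      have : (x : ℝ) + y < d + 2 - Q := by linarith
      exact_mod_cast this
    refine ⟨by simp only; omega, by simp only; omega, by simp only; omega⟩
  have g1 := FS.glue f1 f3 (fun p hp => ⟨hp.1, hp.2.1⟩)
    (fun p hp => ⟨hp.1, le_trans (by omega) hp.2.1⟩) 0 1 (by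
      intro p hp q hq
      have h1 := hp.2.2.1
      have h2 := hq.2.1
      omega)
  intro M hM hM1
  refine g1.mono ?_ ?_ M hM (c' := κ m * ((d + 1) * (d + 2) - v1 * (v1 + 1) - v2 * (v2 + 1) -
      v3 * (v3 + 1) - 13 * Q ^ 2)) ?_
  · rintro ⟨x, y⟩ (hp | hp)
    · obtain ⟨k1, k2, k3, k4⟩ := hp
      simp only at k1 k2 k3 k4
      have q1 : x < d + 1 - y := line_lt (z := 0 + Q - y) (y := y - 0 + 1) (n := Q + 1)
        (c0 := d + 2) (c1 := d + 1 - Q) (by omega) (by omega) (by ring) (by omega) (by omega)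
        (by omega) (by ring) k4
      have q2 : x < d + 1 - v3 := line_lt (z := 0 + Q - y) (y := y - 0 + 1) (n := Q + 1)
        (c0 := d + 1 - v3) (c1 := d + 1 - v3) (by omega) (by omega) (by ring) (by omega)
        (by omega) (by omega) (by ring) k4
      have q3 : x < d + 1 - v1 - v3 + y := line_lt (z := 0 + Q - y) (y := y - 0 + 1) (n := Q + 1)
        (c0 := d - v1 - v3) (c1 := d + 1 - v1 - v3 + Q) (by omega) (by omega) (by ring) (by omega)
        (by omega) (by omega) (by ring) k4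
      have q4 : x < d + 1 - v1 - v2 - v3 + 2 * y := line_lt (z := 0 + Q - y) (y := y - 0 + 1)
        (n := Q + 1) (c0 := d - 1 - v1 - v2 - v3) (c1 := d + 1 - v1 - v2 - v3 + 2 * Q)
        (by omega) (by omega) (by ring) (by omega) (by omega) (by omega) (by ring) k4
      refine ⟨k1, k2, ?_⟩
      simp only
      rcases max_cases (v1 - y) 0 with ⟨c1, c2⟩ | ⟨c1, c2⟩ <;>
        rcases max_cases (v2 - y) 0 with ⟨c3, c4⟩ | ⟨c3, c4⟩ <;>
        rcases max_cases (v3 - y) 0 with ⟨c5, c6⟩ | ⟨c5, c6⟩ <;> rw [c1, c3, c5] <;> omega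
    · obtain ⟨k1, k2, k3⟩ := hp
      simp only at k1 k2 k3
      refine ⟨k1, by simp only; omega, ?_⟩
      simp only
      rcases max_cases (v1 - y) 0 with ⟨c1, c2⟩ | ⟨c1, c2⟩ <;>
        rcases max_cases (v2 - y) 0 with ⟨c3, c4⟩ | ⟨c3, c4⟩ <;>
        rcases max_cases (v3 - y) 0 with ⟨c5, c6⟩ | ⟨c5, c6⟩ <;> rw [c1, c3, c5] <;> omega
  · rw [← mul_add]
    refine mul_le_mul_of_nonneg_left ?_ (by unfold κ; positivity)
    push_cast
    have e1 : ((Q : ℝ) + 1) * (v1 + v2 + v3) ≤ (Q + 1) * (3 * Q) :=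
      mul_le_mul_of_nonneg_left (by linarith) (by linarith)
    have e2 : (0 : ℝ) ≤ v1 * (v1 + 1) := mul_nonneg (by linarith) (by linarith)
    have e3 : (0 : ℝ) ≤ v2 * (v2 + 1) := mul_nonneg (by linarith) (by linarith)
    have e4 : (0 : ℝ) ≤ v3 * (v3 + 1) := mul_nonneg (by linarith) (by linarith)
    have e5 : (1280 : ℝ) * Q ≤ Q * Q := mul_le_mul_of_nonneg_right rQ (by linarith)
    nlinarith
  · have : ((1049408 + 524672 + 64 : ℕ) : ℝ) * (m : ℝ) ^ 2 ≤ ((3148352 : ℕ) : ℝ) * (m : ℝ) ^ 2 :=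
      mul_le_mul_of_nonneg_right (by norm_num) (by positivity)
    linarith

/-- **Independence** with three arbitrary multiplicities -/
theorem SM3 {M : Multiset ℕ} {m d v1 v2 v3 Δ : ℕ} (hm : 1 ≤ m) (hM : ∀ x ∈ M, x + 1 ≤ 8 * m)
    (h21 : v2 ≤ v1) (h13 : v1 ≤ v3) (hgap : v1 + v3 + 3840 * m ≤ d)
    (hΔ : Δ + (v1 * (v1 + 1) + v2 * (v2 + 1) + v3 * (v3 + 1)) = (d + 1) * (d + 2))
    (h : sq1 M + 24447552 * m ^ 2 + Δ / (256 * m) + 1 ≤ Δ) :
    SM ({v3} + ({v1} + ({v2} + M))) (TZ d) := by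
  have hmR : (1 : ℝ) ≤ m := by exact_mod_cast hm
  have hΔR : ((d : ℝ) + 1) * (d + 2) - v1 * (v1 + 1) - v2 * (v2 + 1) - v3 * (v3 + 1) = Δ := by
    have : (((Δ + (v1 * (v1 + 1) + v2 * (v2 + 1) + v3 * (v3 + 1)) : ℕ)) : ℝ) =
      (((d + 1) * (d + 2) : ℕ) : ℝ) := by rw [hΔ]
    push_cast at this
    linarith
  have hcap : (sq1 M : ℝ) + 3148352 * (m : ℝ) ^ 2 ≤ κ m * ((Δ : ℝ) - 13 * (1280 * m) ^ 2) := by
    have h1 : ((sq1 M + 24447552 * m ^ 2 + Δ / (256 * m) + 1 : ℕ) : ℝ) ≤ Δ := by exact_mod_cast h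
    push_cast at h1
    have h2 : (Δ : ℝ) / (256 * m) ≤ ((Δ / (256 * m) : ℕ) : ℝ) + 1 := by
      have h3 := Nat.lt_div_mul_add (a := Δ) (b := 256 * m) (by omega)
      have h4 : Δ ≤ (Δ / (256 * m) + 1) * (256 * m) := by
        rw [add_mul, one_mul]
        omega
      rw [div_le_iff₀ (by positivity)]
      exact_mod_cast h4
    have h0 : (0 : ℝ) ≤ ((Δ / (256 * m) : ℕ) : ℝ) := Nat.cast_nonneg _
    have h0' : (0 : ℝ) ≤ (sq1 M : ℝ) := Nat.cast_nonneg _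
    have h5 : (0 : ℝ) ≤ (m : ℝ) ^ 2 := by positivity
    have h6 := κ_ge hm (D := (Δ : ℝ) - 13 * (1280 * m) ^ 2) (by nlinarith)
    have h7 : ((Δ : ℝ) - 13 * (1280 * m) ^ 2) / (256 * m) ≤ (Δ : ℝ) / (256 * m) :=
      div_le_div_of_nonneg_right (by
        have : (0 : ℝ) ≤ 13 * (1280 * (m : ℝ)) ^ 2 := by positivity
        linarith) (by positivity)
    have h8 : 13 * (1280 * (m : ℝ)) ^ 2 = 21299200 * (m : ℝ) ^ 2 := by ring
    rw [h8] at h6 h7 ⊢
    linarith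
  rcases le_or_gt (1280 * m) v3 with c1 | c1
  · refine SM_three (by omega) (by omega) (by omega) ?_
    refine FS_hex (m := m) (d := d) (v1 := v1) (v2 := v2) (v3 := v3) (Q := ((1280 * m : ℕ) : ℤ)) hm
      (by positivity) (by exact_mod_cast h21) (by exact_mod_cast h13) (by push_cast; ring)
      (by exact_mod_cast c1) (by push_cast; omega) M hM ?_
    push_cast
    rw [hΔR]
    exact hcap
  · refine SM_small (by omega) ?_
    refine FS_small (m := m) (d := d) (v1 := v1) (v2 := v2) (v3 := v3) (Q := ((1280 * m : ℕ) : ℤ))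
      hm (by positivity) (by exact_mod_cast h21) (by exact_mod_cast h13) (by push_cast; ring)
      (by exact_mod_cast c1) (by push_cast; omega) M hM ?_
    push_cast
    rw [hΔR]
    exact hcap

/-- **Emptiness** with three arbitrary multiplicities -/
theorem EM3 {M : Multiset ℕ} {m d v1 v2 v3 Δ : ℕ} (hm : 1 ≤ m)
    (hM : ∀ x ∈ M, 1 ≤ x ∧ x ≤ 8 * m)
    (h21 : v2 ≤ v1) (h13 : v1 ≤ v3) (hgap : v1 + v3 + 3840 * m ≤ d)
    (hΔ : Δ + (v1 * (v1 + 1) + v2 * (v2 + 1) + v3 * (v3 + 1)) = (d + 1) * (d + 2))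
    (h : Δ + 4916224 * m ^ 2 < S2 M) : EM ({v3} + ({v1} + ({v2} + M))) (TZ d) := by
  have hmR : (1 : ℝ) ≤ m := by exact_mod_cast hm
  have hΔR : ((d : ℝ) + 1) * (d + 2) - v1 * (v1 + 1) - v2 * (v2 + 1) - v3 * (v3 + 1) = Δ := by
    have : (((Δ + (v1 * (v1 + 1) + v2 * (v2 + 1) + v3 * (v3 + 1)) : ℕ)) : ℝ) =
      (((d + 1) * (d + 2) : ℕ) : ℝ) := by rw [hΔ]
    push_cast at this
    linarith
  have h1 : (Δ : ℝ) + 4916224 * (m : ℝ) ^ 2 < S2 M := by exact_mod_cast h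
  have r0 : (0 : ℝ) ≤ v2 := Nat.cast_nonneg _
  have r1 : (v2 : ℝ) ≤ v1 := by exact_mod_cast h21
  have r2 : (v1 : ℝ) ≤ v3 := by exact_mod_cast h13
  have r3 : (v1 : ℝ) + v3 + 3840 * m ≤ d := by exact_mod_cast hgap
  have hm2 : (0 : ℝ) ≤ (m : ℝ) ^ 2 := by positivity
  rcases le_or_gt (96 * m) v3 with c1 | c1
  · refine EM_three ?_
    refine FE_hex (B := 8 * m) (d := d) (v1 := v1) (v2 := v2) (v3 := v3)
      (q := ((96 * m : ℕ) : ℤ)) (by omega)
      (by positivity) (by exact_mod_cast h21) (by exact_mod_cast h13) (by push_cast; ring)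
      (by exact_mod_cast c1) (by push_cast; omega) M hM ?_
    push_cast
    nlinarith
  · have c1R : (v3 : ℝ) ≤ 96 * m := by exact_mod_cast c1.le
    have key : EM M (TZ d) := by
      have h2 := FE_tri (B := 8 * m) (α := 0) (β := (d : ℝ)) (μ := 0) (ν := 1) (W := d) (H := d)
        (by ring) (by norm_num) (by ring) (by push_cast; linarith) (by push_cast; linarith)
        (by linarith)
      refine Emp.mono (h2 M hM ?_) ?_
      · push_cast
        have e1 : (v3 : ℝ) * (v3 + 1) ≤ (96 * m) * (96 * m + 1) :=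
          mul_le_mul c1R (by linarith) (by linarith) (by linarith)
        have e2 : (v1 : ℝ) * (v1 + 1) ≤ (96 * m) * (96 * m + 1) :=
          mul_le_mul (by linarith) (by linarith) (by linarith) (by linarith)
        have e3 : (v2 : ℝ) * (v2 + 1) ≤ (96 * m) * (96 * m + 1) :=
          mul_le_mul (by linarith) (by linarith) (by linarith) (by linarith)
        nlinarith
      · rintro ⟨x, y⟩ ⟨g1, g2, g3⟩
        simp only at g1 g2 g3
        refine ⟨g2, ?_, ?_⟩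
        · simp only
          have : (0 : ℝ) ≤ x := by exact_mod_cast g1
          linarith
        · simp only
          have : (x : ℝ) + y ≤ d := by exact_mod_cast g3
          linarith
    refine key.mono ?_
    have e : ({v3} + ({v1} + ({v2} + M)) : Multiset ℕ) = M + ({v3} + ({v1} + {v2})) := by abel
    rw [e]
    exact Multiset.le_add_right _ _

end Pool.Agent.K6.H83.HX
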