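import Pool.Agent.K6.H83.HX.Full

/-! Strips: trapezoids with two vertical unit steps, cut by a diagonal. -/

set_option autoImplicit false

namespace Pool.Agent.K6.H83.HX

open Finset Pool.Agent.TH176.Nag Pool.Agent.TH603.Sur Pool.Agent.TH641.UM Pool.Agent.K6.H83.QH
  Pool.Agent.Y205.AV

/-- an open strip with `N` rows, whose right side goes from `A` below to `A'` above -/
def St (k N A A' : ℤ) : Set (ℤ × ℤ) :=
  {p | 0 ≤ p.1 ∧ k ≤ p.2 ∧ p.2 < k + N ∧
    (N + 1) * p.1 < (k + N - p.2) * A + (p.2 - k + 1) * A'}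

/-- a closed strip of height `h` -/
def Sc (k h A A' : ℤ) : Set (ℤ × ℤ) :=
  {p | 0 ≤ p.1 ∧ k ≤ p.2 ∧ p.2 ≤ k + h ∧ h * p.1 ≤ (k + h - p.2) * A + (p.2 - k) * A'}

theorem FS.comap {m l : ℕ} {S S' : Set (ℤ × ℤ)} {c' : ℝ} (h : FS m l S' c') (e v : ℤ)
    (he : e * e = 1) (hS : ∀ p ∈ S', (p.1, e * p.2 + v) ∈ S) : FS m l S c' := by
  intro M hM hM1
  have he0 : e ≠ 0 := by
    intro h0
    rw [h0] at he
    norm_num at he
  refine Sur.comap (w := fam M) (h M hM hM1) 1 0 0 e 0 (-(e * v)) (by simpa using he0) ?_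
  rintro ⟨x, y⟩ hp
  refine ⟨_, hS _ hp, ?_⟩
  simp only [Prod.mk.injEq]
  refine ⟨by ring, ?_⟩
  linear_combination y * he

theorem FS_strip {m : ℕ} {k N A A' : ℤ} (hm : 1 ≤ m) (hk : 0 ≤ k)
    (hN : 1280 * (m : ℤ) ≤ N + 1) (hA : 1280 * (m : ℤ) ≤ A + 1) (hA' : 1280 * (m : ℤ) ≤ A' + 1) :
    FS m 1049408 (St k N A A') (κ m * (((A : ℝ) + A' + 1) * (N + 1))) := by
  have hmR : (1 : ℝ) ≤ m := by exact_mod_cast hm
  have hNR : 1280 * (m : ℝ) ≤ N + 1 := by exact_mod_cast hN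
  have hAR : 1280 * (m : ℝ) ≤ A + 1 := by exact_mod_cast hA
  have hAR' : 1280 * (m : ℝ) ≤ A' + 1 := by exact_mod_cast hA'
  obtain ⟨H, hH⟩ : ∃ H : ℝ, H = (N : ℝ) + 1 := ⟨_, rfl⟩
  have hH0 : 0 < H := by rw [hH]; linarith
  have hA0 : (0 : ℝ) < A + 1 := by linarith
  have hA0' : (0 : ℝ) < A' + 1 := by linarith
  obtain ⟨n1, hn1⟩ : ∃ n1 : ℝ, n1 = ((A : ℝ) + 1) / H := ⟨_, rfl⟩
  have hn1H : n1 * H = A + 1 := by rw [hn1]; field_simp
  have hn10 : 0 < n1 := by rw [hn1]; positivity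
  obtain ⟨s, hs⟩ : ∃ s : ℝ, s = ((A' : ℝ) - A) / H := ⟨_, rfl⟩
  have hsH : s * H = A' - A := by rw [hs]; field_simp
  have hsum : (n1 + s) * H = A' + 1 := by rw [add_mul, hn1H, hsH]; ring
  have hsum0 : 0 < n1 + s := by
    have : 0 < (n1 + s) * H := by rw [hsum]; exact hA0'
    exact (pos_iff_pos_of_mul_pos this).2 hH0
  -- the two triangles
  have t1 : FS m 524672 (RegO (-1) A 0 n1) (κ m * (((A : ℝ) + 1 / 2) * H)) := by
    refine FS_tri hm (W := (A : ℝ) + 1) (H := H) (by ring) (by linarith)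
      (by rw [zero_add]; exact hn1H) hAR (by rw [hH]; exact hNR) ?_
    rw [κ_spec hm]
    linarith
  have t2 : FS m 524672 (RegO (-1) A' n1 s) (κ m * (((A' : ℝ) + 1 / 2) * H)) := by
    refine FS_tri hm (W := (A' : ℝ) + 1) (H := H) (by ring) hsum0 hsum hAR'
      (by rw [hH]; exact hNR) ?_
    rw [κ_spec hm]
    linarith
  -- the two halves of the strip
  obtain ⟨T1, hT1⟩ : ∃ T1 : Set (ℤ × ℤ), T1 = {p : ℤ × ℤ | 0 ≤ p.1 ∧ k ≤ p.2 ∧
    (N + 1) * p.1 + (A + 1) * (p.2 - k + 1) < A * (N + 1)} := ⟨_, rfl⟩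
  obtain ⟨T2, hT2⟩ : ∃ T2 : Set (ℤ × ℤ), T2 = {p : ℤ × ℤ | 0 ≤ p.1 ∧ k ≤ p.2 ∧ p.2 < k + N ∧
    A * (N + 1) < (N + 1) * p.1 + (A + 1) * (p.2 - k + 1) ∧
    (N + 1) * p.1 < (k + N - p.2) * A + (p.2 - k + 1) * A'} := ⟨_, rfl⟩
  have hNZ : 0 < N + 1 := by omega
  have hAZ : 0 < A + 1 := by omega
  have hAZ' : 0 < A' + 1 := by omega
  have f1 : FS m 524672 T1 (κ m * (((A : ℝ) + 1 / 2) * H)) := by
    refine FS.comap t1 1 (k - 1) (by norm_num) ?_
    rintro ⟨x, y⟩ ⟨g1, g2, g3⟩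
    simp only at g1 g2 g3
    rw [hT1]
    have gx : 0 ≤ x := by
      have : (-1 : ℝ) < x := by linarith
      have : (-1 : ℤ) < x := by exact_mod_cast this
      omega
    refine ⟨by simp only; omega, by simp only; omega, ?_⟩
    have e : (H * x + (A + 1) * y : ℝ) < A * H := by
      have h5 : x * H < (A - n1 * y) * H := mul_lt_mul_of_pos_right g3 hH0
      have h6 : n1 * y * H = (A + 1) * y := by rw [← hn1H]; ring
      nlinarith
    rw [hH] at e
    have e' : (N + 1) * x + (A + 1) * y < A * (N + 1) := by exact_mod_cast e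
    simp only
    have e1 : (1 * y + (k - 1)) - k + 1 = y := by ring
    rw [e1]
    exact e'
  have f2 : FS m 524672 T2 (κ m * (((A' : ℝ) + 1 / 2) * H)) := by
    refine FS.comap t2 (-1) (k + N) (by norm_num) ?_
    rintro ⟨x, y⟩ ⟨g1, g2, g3⟩
    simp only at g1 g2 g3
    rw [hT2]
    have gy : (0 : ℝ) < y := by exact_mod_cast g1
    have gx : 0 ≤ x := by
      have : (-1 : ℝ) < x := by
        have := mul_pos hn10 gy
        linarith
      have : (-1 : ℤ) < x := by exact_mod_cast this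
      omega
    have e1 : ((A + 1) * y : ℝ) < H * (x + 1) := by
      have h5 : (-1 + n1 * y) * H < x * H := mul_lt_mul_of_pos_right g2 hH0
      have h6 : n1 * y * H = (A + 1) * y := by rw [← hn1H]; ring
      nlinarith
    have e2 : (H * x : ℝ) < A' * H - (A' - A) * y := by
      have h5 : x * H < (A' - s * y) * H := mul_lt_mul_of_pos_right g3 hH0
      have h6 : s * y * H = (A' - A) * y := by rw [← hsH]; ring
      nlinarith
    have e3 : (y : ℝ) < H := by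
      have h5 : ((A' : ℝ) + 1) * y < (A' + 1) * H := by linarith
      exact lt_of_mul_lt_mul_left h5 hA0'.le
    rw [hH] at e1 e2 e3
    have e1' : (A + 1) * y < (N + 1) * (x + 1) := by exact_mod_cast e1
    have e2' : (N + 1) * x < A' * (N + 1) - (A' - A) * y := by exact_mod_cast e2
    have e3' : y < N + 1 := by exact_mod_cast e3
    have q3 : -1 * y + (k + N) = k + N - y := by ring
    simp only [q3, Set.mem_ofPred_eq]
    refine ⟨gx, by omega, by omega, ?_, ?_⟩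
    · have : k + N - y - k + 1 = N + 1 - y := by ring
      rw [this]
      linarith
    · have h7 : k + N - (k + N - y) = y := by ring
      have h8 : k + N - y - k + 1 = N + 1 - y := by ring
      rw [h7, h8]
      linarith
  have key := FS.glue f1 f2 (fun p hp => by
    rw [hT1] at hp
    exact ⟨hp.1, hk.trans hp.2.1⟩) (fun p hp => by
    rw [hT2] at hp
    exact ⟨hp.1, hk.trans hp.2.1⟩) (N + 1) (A + 1) (by
    intro p hp q hq
    rw [hT1] at hp
    rw [hT2] at hq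
    have h1 := hp.2.2
    have h2 := hq.2.2.2.1
    linarith)
  refine FS.mono key ?_ ?_
  · rintro ⟨x, y⟩ (hp | hp)
    · rw [hT1] at hp
      obtain ⟨g1, g2, g3⟩ := hp
      simp only at g1 g2 g3
      have hy : y < k + N := by
        have h1 : 0 ≤ (N + 1) * x := mul_nonneg hNZ.le g1
        have h2 : (A + 1) * (y - k + 1) < (A + 1) * (N + 1) := by linarith
        have h3 := lt_of_mul_lt_mul_left h2 hAZ.le
        omega
      refine ⟨g1, g2, hy, ?_⟩
      simp only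
      have h4 : 0 ≤ (A' + 1) * (y - k + 1) := mul_nonneg hAZ'.le (by omega)
      linarith
    · rw [hT2] at hp
      exact ⟨hp.1, hp.2.1, hp.2.2.1, hp.2.2.2.2⟩
  · rw [← mul_add, ← hH]
    apply le_of_eq
    ring

theorem Sc_finite (k h A A' : ℤ) (hk : 0 < h) (hA : 0 ≤ A) (hA' : 0 ≤ A') :
    (Sc k h A A').Finite := by
  refine Set.Finite.subset ((Set.finite_Icc (0 : ℤ) (A + A')).prod (Set.finite_Icc k (k + h))) ?_
  rintro ⟨x, y⟩ ⟨g1, g2, g3, g4⟩
  simp only at g1 g2 g3 g4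
  refine ⟨⟨g1, ?_⟩, ⟨g2, g3⟩⟩
  simp only
  have h1 : h * x ≤ h * (A + A') := by
    have e1 : 0 ≤ (y - k) * A := mul_nonneg (by omega) hA
    have e2 : 0 ≤ (k + h - y) * A' := mul_nonneg (by omega) hA'
    linarith
  exact le_of_mul_le_mul_left h1 hk

theorem FE_strip {B : ℕ} {k h A A' : ℤ} (hk : 0 ≤ k) (hh0 : 0 < h) (hA0 : 0 < A) (hA0' : 0 < A')
    (hh : 12 * (B : ℤ) ≤ h) (hA : 12 * (B : ℤ) ≤ A) (hA' : 12 * (B : ℤ) ≤ A') :
    FE B 33 (Sc k h A A') (((A : ℝ) + A') * h) := by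
  have hhR : 12 * (B : ℝ) ≤ h := by exact_mod_cast hh
  have hAR : 12 * (B : ℝ) ≤ A := by exact_mod_cast hA
  have hAR' : 12 * (B : ℝ) ≤ A' := by exact_mod_cast hA'
  have h0 : (0 : ℝ) < h := by exact_mod_cast hh0
  have a0 : (0 : ℝ) < A := by exact_mod_cast hA0
  have a0' : (0 : ℝ) < A' := by exact_mod_cast hA0'
  obtain ⟨n1, hn1⟩ : ∃ n1 : ℝ, n1 = (A : ℝ) / h := ⟨_, rfl⟩
  have hn1H : n1 * h = A := by rw [hn1]; field_simp
  have hn10 : 0 < n1 := by rw [hn1]; positivity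
  obtain ⟨s, hs⟩ : ∃ s : ℝ, s = ((A' : ℝ) - A) / h := ⟨_, rfl⟩
  have hsH : s * h = A' - A := by rw [hs]; field_simp
  have hsum : (n1 + s) * h = A' := by rw [add_mul, hn1H, hsH]; ring
  have hsum0 : 0 < n1 + s := by
    have : 0 < (n1 + s) * h := by rw [hsum]; exact a0'
    exact (pos_iff_pos_of_mul_pos this).2 h0
  have t1 : FE B 16 (Reg 0 A 0 n1) ((A : ℝ) * h) :=
    FE_tri (by ring) (by linarith) (by rw [zero_add]; exact hn1H) hAR hhR h0
  have t2 : FE B 16 (Reg 0 A' n1 s) ((A' : ℝ) * h) :=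
    FE_tri (by ring) hsum0 hsum hAR' hhR h0
  obtain ⟨T1, hT1⟩ : ∃ T1 : Set (ℤ × ℤ), T1 = {p : ℤ × ℤ | p ∈ Sc k h A A' ∧
    h * p.1 + A * (p.2 - k) ≤ A * h} := ⟨_, rfl⟩
  obtain ⟨T2, hT2⟩ : ∃ T2 : Set (ℤ × ℤ), T2 = {p : ℤ × ℤ | p ∈ Sc k h A A' ∧
    A * h < h * p.1 + A * (p.2 - k)} := ⟨_, rfl⟩
  have f1 : FE B 16 T1 ((A : ℝ) * h) := by
    intro M hM hM1
    refine Emp.comap (w := fam M) (t1 M hM hM1) 1 0 0 1 0 (-k) (by norm_num) ?_
    rintro ⟨x, y⟩ hp
    rw [hT1] at hp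
    obtain ⟨⟨g1, g2, g3, g4⟩, g5⟩ := hp
    simp only at g1 g2 g3 g4 g5
    have q2 : 1 * x + 0 * y + 0 = x := by ring
    have q3 : 0 * x + 1 * y + -k = y - k := by ring
    simp only [q2, q3]
    have g5' : (h : ℝ) * x + A * ((y - k : ℤ) : ℝ) ≤ A * h := by exact_mod_cast g5
    have g1' : (0 : ℝ) ≤ x := by exact_mod_cast g1
    refine ⟨by simp only; omega, ?_, ?_⟩
    · simp only
      linarith
    · simp only
      have h5 : (x : ℝ) * h ≤ (A - n1 * ((y - k : ℤ) : ℝ)) * h := by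
        have h6 : n1 * ((y - k : ℤ) : ℝ) * h = A * ((y - k : ℤ) : ℝ) := by rw [← hn1H]; ring
        nlinarith
      exact le_of_mul_le_mul_right h5 h0
  have f2 : FE B 16 T2 ((A' : ℝ) * h) := by
    intro M hM hM1
    refine Emp.comap (w := fam M) (t2 M hM hM1) 1 0 0 (-1) 0 (k + h) (by norm_num) ?_
    rintro ⟨x, y⟩ hp
    rw [hT2] at hp
    obtain ⟨⟨g1, g2, g3, g4⟩, g5⟩ := hp
    simp only at g1 g2 g3 g4 g5
    have q2 : 1 * x + 0 * y + 0 = x := by ring
    have q3 : 0 * x + -1 * y + (k + h) = k + h - y := by ring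
    simp only [q2, q3]
    have g4' : (h : ℝ) * x ≤ (k + h - y) * A + (y - k) * A' := by exact_mod_cast g4
    have g5' : (A : ℝ) * h < h * x + A * (y - k) := by exact_mod_cast g5
    refine ⟨by simp only; omega, ?_, ?_⟩
    · simp only
      push_cast
      have h5 : (0 + n1 * ((k : ℝ) + h - y)) * h ≤ x * h := by
        have h6 : n1 * ((k : ℝ) + h - y) * h = A * (k + h - y) := by rw [← hn1H]; ring
        nlinarith
      exact le_of_mul_le_mul_right h5 h0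
    · simp only
      push_cast
      have h5 : (x : ℝ) * h ≤ (A' - s * ((k : ℝ) + h - y)) * h := by
        have h6 : s * ((k : ℝ) + h - y) * h = (A' - A) * (k + h - y) := by rw [← hsH]; ring
        nlinarith
      exact le_of_mul_le_mul_right h5 h0
  have hfin := Sc_finite k h A A' hh0 hA0.le hA0'.le
  have key := FE.glue f1 f2 (hfin.subset (by rw [hT1]; exact fun p hp => hp.1))
    (hfin.subset (by rw [hT2]; exact fun p hp => hp.1)) (fun p hp => by
    rw [hT1] at hp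
    exact ⟨hp.1.1, hk.trans hp.1.2.1⟩) (fun p hp => by
    rw [hT2] at hp
    exact ⟨hp.1.1, hk.trans hp.1.2.1⟩) (by positivity) (by positivity) h A (by
    intro p hp q hq
    rw [hT1] at hp
    rw [hT2] at hq
    have h1 := hp.2
    have h2 := hq.2
    linarith)
  refine FE.mono key ?_ (le_of_eq (by ring))
  intro p hp
  rcases le_or_gt (h * p.1 + A * (p.2 - k)) (A * h) with h1 | h1
  · left
    rw [hT1]
    exact ⟨hp, h1⟩
  · right
    rw [hT2]
    exact ⟨hp, h1⟩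

end Pool.Agent.K6.H83.HX
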