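import Pool.Agent.K6.H83.QH.RegQ

/-! Independence on open triangles of any shape, arbitrary bounded multiplicities. -/

set_option autoImplicit false

namespace Pool.Agent.K6.H83.HX

open Finset Pool.Agent.TH176.Nag Pool.Agent.TH603.Sur Pool.Agent.TH745.MN Pool.Agent.Y205.FW
  Pool.Agent.TH641.UM Pool.Agent.TH2.NU Pool.Agent.K6.H83.QH

theorem heightR {H : ℝ} {m : ℕ} (hm : 1 ≤ m) (hH : 256 * (m : ℝ) ≤ H) :
    ∃ (J : ℕ) (U : ℝ), 2 ^ J * (2 * U) = H ∧ 128 * (m : ℝ) ≤ U ∧ U ≤ 256 * m := by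
  have hmR : (1 : ℝ) ≤ m := by exact_mod_cast hm
  have hex : ∃ J : ℕ, H / (2 ^ J * 2) ≤ 256 * m := by
    obtain ⟨n, hn⟩ := pow_unbounded_of_one_lt (H / (256 * m)) (one_lt_two)
    refine ⟨n, ?_⟩
    rw [div_lt_iff₀ (by positivity)] at hn
    rw [div_le_iff₀ (by positivity)]
    have : 0 ≤ (2 : ℝ) ^ n * (256 * m) := by positivity
    linarith
  classical
  obtain ⟨J, hJ⟩ : ∃ J, J = Nat.find hex := ⟨_, rfl⟩
  have hJ1 : H / (2 ^ J * 2) ≤ 256 * m := by rw [hJ]; exact Nat.find_spec hex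
  obtain ⟨U, hU⟩ : ∃ U : ℝ, U = H / (2 ^ J * 2) := ⟨_, rfl⟩
  rw [← hU] at hJ1
  refine ⟨J, U, ?_, ?_, hJ1⟩
  · rw [hU]
    field_simp
  · rcases Nat.eq_zero_or_pos J with h0 | h0
    · rw [h0] at hU
      rw [hU]
      norm_num
      linarith
    · obtain ⟨j, hj⟩ : ∃ j, J = j + 1 := ⟨J - 1, by omega⟩
      have g1 : ¬ H / (2 ^ j * 2) ≤ 256 * m := Nat.find_min hex (by omega)
      push Not at g1
      have e : H / (2 ^ j * 2) = 2 * U := by
        rw [hU, hj, pow_succ]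
        field_simp
      rw [e] at g1
      linarith

/-- independence from cells of the same height -/
theorem cells_LJ {M : Multiset ℕ} {J n : ℕ} {U c H ρ : ℝ} (hJ : 2 ^ J * (2 * U) = H)
    (hU : 64 ≤ U) (hc0 : 0 ≤ c) (hρ : 16 ≤ ρ) (hall : CellN M c (1 + n) U)
    (hcost : c + 2 * (n : ℝ) * U + 2 * H ≤ ρ * H ^ 2) : SM M (LJ ρ (ρ * H)) := by
  have p1 : (1 : ℝ) ≤ 2 ^ J := one_le_pow₀ (by norm_num)
  have g0 : GM M c (2 * ((1 + n : ℕ) : ℝ) / 2 + 1) (2 * (U - 1 / 16) + 1 / 32) (2 * U) :=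
    GM.ofRM (by linarith) hc0 (by positivity) fun h h1 h2 => hall h h1 h2
  have g1 := g0.mono (g' := (n : ℝ) + 2) (τ' := 2 * U - 1 / 16) le_rfl (by
    push_cast
    linarith) (by linarith) (by linarith) le_rfl
  have g2 := g1.lifts (by linarith) (by positivity) J
  have e' : (2 : ℝ) ^ J * (2 * U - 1 / 16 + 1 / 16) - 1 / 16 = H - 1 / 16 := by
    rw [← hJ]; ring
  rw [e', hJ] at g2
  refine g2 H ρ (by linarith) le_rfl hρ ?_
  have e3 : ((n : ℝ) / 2 ^ J + 2) * H = 2 * n * U + 2 * H := by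
    rw [add_mul]
    congr 1
    rw [← hJ]
    field_simp
  rw [e3]
  linarith

/-- independence on a wide right triangle -/
theorem SM_LJ {M : Multiset ℕ} {m c : ℕ} {H ρ : ℝ} (hm : 1 ≤ m)
    (hM : ∀ x ∈ M, x + 1 ≤ 8 * m) (hH : 256 * (m : ℝ) ≤ H) (hρ : 16 ≤ ρ)
    (hc : (c : ℝ) + c / (256 * m) + 2 * H ≤ ρ * H ^ 2)
    (h : Pool.Agent.Y205.AV.sq1 M + 524672 * m ^ 2 ≤ c) : SM M (LJ ρ (ρ * H)) := by
  have hmR : (1 : ℝ) ≤ m := by exact_mod_cast hm
  refine Pool.Agent.Y205.AV.greedy (S := LJ ρ (ρ * H)) (B := 8 * m)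
    (A := 8192 * (8 * m) ^ 2) (Δ := c) ?_ M.card M 0 le_rfl
    (Nat.zero_le _) (fun x hx => ⟨Nat.zero_le _, hM x hx⟩) (by
      have e : 6 * (8 * m) ^ 2 + 8192 * (8 * m) ^ 2 = 524672 * m ^ 2 := by ring
      omega)
  clear h hM M
  intro M hM h
  obtain ⟨xs, a1, a2, a3⟩ := Pool.Agent.Y205.AV.group_up (g := 8192) (lo := 4 * m) (by norm_num)
    M.card M (8 * m) le_rfl (fun x hx => ⟨by have := (hM x hx).2; omega, (hM x hx).1⟩)
  have h3 := a3 (LJ ρ (ρ * H)) 0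
  rw [add_zero, add_zero] at h3
  apply h3
  obtain ⟨P, hP⟩ : ∃ P : List (ℕ × ℕ), P = xs.toList.map fun x => (8192, x) := ⟨_, rfl⟩
  rw [bind_eq, ← hP]
  have hSqP : Sq P = 8192 * Pool.Agent.Y205.AV.sq1 xs := by rw [hP]; exact Sq_bind _ _
  rcases List.eq_nil_or_concat P with h0 | ⟨_, _, h0⟩
  · rw [h0]
    have e : GG ([] : List (ℕ × ℕ)) = 0 := by simp [GG]
    rw [e]
    exact SM_empty
  have hPne : P ≠ [] := by rw [h0]; simp
  obtain ⟨J, U, hJ, hU1, hU2⟩ := heightR hm hH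
  have hU0 : 0 < U := by linarith
  have hPm : ∀ p ∈ P, p.1 = 8192 ∧ 4 * m ≤ p.2 ∧ p.2 + 1 ≤ 8 * m := by
    intro p hp
    rw [hP] at hp
    obtain ⟨x, hx, rfl⟩ := List.mem_map.1 hp
    have := a1 x (Multiset.mem_toList.1 hx)
    exact ⟨rfl, this.1, this.2⟩
  have hPa : ∀ p ∈ P, 131072 * (m : ℝ) ^ 2 ≤ (p.1 : ℝ) * (p.2 + 1) ^ 2 := by
    intro p hp
    obtain ⟨g1, g2, g3⟩ := hPm p hp
    have g4 : 4 * (m : ℝ) ≤ (p.2 : ℝ) + 1 := by
      have : ((4 * m : ℕ) : ℝ) ≤ ((p.2 : ℕ) : ℝ) := by exact_mod_cast g2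
      push_cast at this
      linarith
    have g5 : (4 * (m : ℝ)) ^ 2 ≤ ((p.2 : ℝ) + 1) ^ 2 := pow_le_pow_left₀ (by positivity) g4 2
    rw [g1]
    have e : 131072 * (m : ℝ) ^ 2 = 8192 * (4 * m) ^ 2 := by ring
    rw [e]
    push_cast
    linarith
  have hUU : 2 * U ^ 2 ≤ 131072 * (m : ℝ) ^ 2 := by
    have : U ^ 2 ≤ (256 * (m : ℝ)) ^ 2 := pow_le_pow_left₀ hU0.le hU2 2
    have e : (256 * (m : ℝ)) ^ 2 = 65536 * m ^ 2 := by ring
    linarith
  have hcell := cells_rich (by linarith : 64 ≤ U) P hPne fun p hp => by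
    obtain ⟨g1, g2, g3⟩ := hPm p hp
    refine ⟨?_, hUU.trans (hPa p hp)⟩
    have : ((p.2 + 1 : ℕ) : ℝ) ≤ ((8 * m : ℕ) : ℝ) := by exact_mod_cast g3
    push_cast at this
    linarith
  obtain ⟨n, hn⟩ : ∃ n, P.length = 1 + n := by
    have := List.length_pos_iff.2 hPne
    exact ⟨P.length - 1, by omega⟩
  rw [hn] at hcell
  refine cells_LJ hJ (by linarith) (by positivity) hρ hcell ?_
  -- the cost
  have hlen : (P.length : ℝ) * (131072 * (m : ℝ) ^ 2) ≤ Sq P := by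
    have : ∀ L : List (ℕ × ℕ), (∀ p ∈ L, 131072 * (m : ℝ) ^ 2 ≤ (p.1 : ℝ) * (p.2 + 1) ^ 2) →
        (L.length : ℝ) * (131072 * (m : ℝ) ^ 2) ≤ Sq L := by
      intro L
      induction L with
      | nil => intro _; simp [Sq]
      | cons p L ih =>
        intro hL
        rw [Sq_cons, List.length_cons]
        push_cast
        have g1 := hL p List.mem_cons_self
        have g2 := ih fun q hq => hL q (List.mem_cons_of_mem _ hq)
        linarith
    exact this P hPa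
  have hnP : (n : ℝ) ≤ P.length := by
    rw [hn]; push_cast; linarith
  have hSqc : (Sq P : ℝ) ≤ c := by
    have h1 : Sq P ≤ c := by
      rw [hSqP]
      omega
    exact_mod_cast h1
  have hover : 2 * (n : ℝ) * U * (256 * m) ≤ c := by
    have g1 : 2 * (n : ℝ) * U ≤ 2 * P.length * (256 * m) :=
      mul_le_mul (by linarith) hU2 hU0.le (by positivity)
    have g2 : 2 * (n : ℝ) * U * (256 * m) ≤ 2 * P.length * (256 * m) * (256 * m) :=
      mul_le_mul_of_nonneg_right g1 (by positivity)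
    have e : 2 * (P.length : ℝ) * (256 * m) * (256 * m) = P.length * (131072 * (m : ℝ) ^ 2) := by
      ring
    linarith
  have hq1 : 2 * (n : ℝ) * U ≤ c / (256 * m) := by
    rw [le_div_iff₀ (by positivity)]
    exact hover
  linarith

/-- independence on an open triangle -/
theorem SM_tri {M : Multiset ℕ} {m c : ℕ} {α β μ ν W H : ℝ} (hm : 1 ≤ m)
    (hM : ∀ x ∈ M, x + 1 ≤ 8 * m) (hW : β = α + W) (hn : 0 < μ + ν) (hWH : (μ + ν) * H = W)
    (hW1 : 1280 * (m : ℝ) ≤ W) (hH1 : 1280 * (m : ℝ) ≤ H)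
    (hc : (c : ℝ) + c / (256 * m) + H / 2 ≤ W * H)
    (h : Pool.Agent.Y205.AV.sq1 M + 524672 * m ^ 2 ≤ c) : SM M (RegO α β μ ν) := by
  have hmR : (1 : ℝ) ≤ m := by exact_mod_cast hm
  obtain ⟨n, hnn⟩ : ∃ n : ℝ, n = μ + ν := ⟨_, rfl⟩
  rw [← hnn] at hn hWH
  have hH0 : 0 < H := by linarith
  -- the number of rows put together
  obtain ⟨x, hx1, hxn, hxn2, hxH, hx4⟩ : ∃ x : ℕ, 1 ≤ x ∧ 1 ≤ x * n ∧ 16 ≤ x ^ 2 * n ∧
      256 * m * (x : ℝ) ≤ H ∧ (4 : ℝ) ≤ x := by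
    rcases le_total 1 n with h1 | h1
    · refine ⟨4, by norm_num, ?_, ?_, ?_, by norm_num⟩
      · push_cast; linarith
      · push_cast; linarith
      · push_cast; linarith
    · refine ⟨⌈4 / n⌉₊, ?_, ?_, ?_, ?_, ?_⟩
      · exact Nat.one_le_ceil_iff.2 (by positivity)
      · have g1 : 4 / n ≤ ⌈4 / n⌉₊ := Nat.le_ceil _
        rw [div_le_iff₀ hn] at g1
        linarith
      · have g1 : 4 / n ≤ ⌈4 / n⌉₊ := Nat.le_ceil _
        rw [div_le_iff₀ hn] at g1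
        have g2 : (4 : ℝ) ≤ ⌈4 / n⌉₊ := by
          have : 4 ≤ 4 / n := by rw [le_div_iff₀ hn]; linarith
          exact this.trans (Nat.le_ceil _)
        have e : (⌈4 / n⌉₊ : ℝ) ^ 2 * n = ⌈4 / n⌉₊ * (⌈4 / n⌉₊ * n) := by ring
        rw [e]
        have g3 : (4 : ℝ) * 4 ≤ ⌈4 / n⌉₊ * (⌈4 / n⌉₊ * n) :=
          mul_le_mul g2 g1 (by norm_num) (by positivity)
        linarith
      · have g1 : (⌈4 / n⌉₊ : ℝ) < 4 / n + 1 := Nat.ceil_lt_add_one (by positivity)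
        have g2 : 4 / n + 1 ≤ 5 / n := by
          rw [div_add_one hn.ne', div_le_div_iff_of_pos_right hn]
          linarith
        have g3 : 256 * m * (⌈4 / n⌉₊ : ℝ) ≤ 256 * m * (5 / n) :=
          mul_le_mul_of_nonneg_left (by linarith) (by positivity)
        have e : 256 * (m : ℝ) * (5 / n) = 1280 * m / n := by ring
        rw [e] at g3
        refine g3.trans ?_
        rw [div_le_iff₀ hn]
        linarith
      · have : 4 ≤ 4 / n := by rw [le_div_iff₀ hn]; linarith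
        exact this.trans (Nat.le_ceil _)
  have hx0 : (0 : ℝ) < x := by linarith
  obtain ⟨H', hH'⟩ : ∃ H' : ℝ, H' = H / x := ⟨_, rfl⟩
  have hxH' : x * H' = H := by rw [hH']; field_simp
  have key : SM M (LJ (x ^ 2 * n) (x ^ 2 * n * H')) := by
    refine SM_LJ hm hM (c := c) ?_ hxn2 ?_ h
    · rw [hH', le_div_iff₀ hx0]; linarith
    · have e1 : x ^ 2 * n * H' ^ 2 = n * (x * H') ^ 2 := by ring
      rw [e1, hxH']
      have e2 : n * H ^ 2 = W * H := by rw [← hWH]; ring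
      rw [e2]
      have e3 : 2 * H' ≤ H / 2 := by
        have : 4 * H' ≤ x * H' := mul_le_mul_of_nonneg_right hx4 (by rw [hH']; positivity)
        rw [hxH'] at this
        linarith
      linarith
  have e4 : x ^ 2 * n * H' = x * W := by
    rw [← hWH]
    have : (x : ℝ) ^ 2 * n * H' = x * n * (x * H') := by ring
    rw [this, hxH']
    ring
  rw [e4] at key
  -- unfold the rows
  have h1 : SM M (RegO 0 (x * W) x (x * (x * n - 1))) := by
    have h2 := Sur_row (w := fam M) (ρ := x ^ 2 * n) (Δ := x * W) (μ := x)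
      (ν := x * (x * n - 1)) 0 (by ring) key
    rw [zero_add] at h2
    exact h2
  have h2 : SM M (RegO 0 W 0 n) := by
    refine Sur_regC (w := fam M) (x : ℤ) 1 0 1 (by ring) (by positivity) ?_ ?_
      (α' := 0) (β' := x * W) (μ' := x) (ν' := x * (x * n - 1)) ?_ ?_ ?_ ?_ h1
    · push_cast; norm_num
    · push_cast; linarith
    · push_cast; ring
    · push_cast; ring
    · push_cast; ring
    · push_cast; ring
  have h3 : Sur (fam M) {p : ℤ × ℤ | 0 ≤ p.1 ∧ 0 ≤ p.2 ∧ (p.1 : ℝ) + 1 + n * (p.2 + 1) < W} := by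
    refine Sur.comap (w := fam M) h2 1 0 0 1 1 1 (by norm_num) ?_
    rintro ⟨a, b⟩ ⟨g1, g2, g3⟩
    simp only at g1 g2 g3
    have g4 : 0 < a := by
      have : (0 : ℝ) < a := by linarith
      exact_mod_cast this
    refine ⟨(a - 1, b - 1), ⟨by simp only; omega, by simp only; omega, ?_⟩, ?_⟩
    · simp only
      push_cast
      linarith
    · ext <;> simp
  rw [hW]
  exact Sur_row (w := fam M) α (by rw [hnn]) h3

end Pool.Agent.K6.H83.HX
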